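import Mathlib

/-!
# B4: the double covers of products of two elliptic curves, `p_g = q = 2`, `K ^ 2 = 4`, the data
-/

namespace Pool.Agent.Helper70.B4

open Function Polynomial

universe u

/-- The data of the double cover `w ^ 2 = ψ` of the product of the curves of genus one
`y i ^ 2 = ∏_{j < 3} (x i - a i j)`, `i = 0, 1`, where `ψ = c 0 + c 1 x 0 + c 2 x 1 + c 3 x 0 x 1`. -/
structure Pi (k N : Type u) [Field k] [Field N] [Algebra k N] where
  x : Fin 2 → N
  y : Fin 2 → N
  w : N
  a : Fin 2 → Fin 3 → k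
  ha : ∀ i, Injective (a i)
  c : Fin 4 → k
  hx : AlgebraicIndependent k ![x 0, x 1]
  hy : ∀ i, y i ^ 2 = ∏ j, (x i - algebraMap k N (a i j))
  hw : w ^ 2 = algebraMap k N (c 0) + algebraMap k N (c 1) * x 0 + algebraMap k N (c 2) * x 1 +
    algebraMap k N (c 3) * (x 0 * x 1)
  hgen : IntermediateField.adjoin k (Set.range x ∪ Set.range y ∪ {w}) = ⊤
  hdeg : Module.finrank (IntermediateField.adjoin k {x 0, x 1}) N = 8

end Pool.Agent.Helper70.B4
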