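import Mathlib
import Pool.Agent.Helper9.NS
import Pool.Agent.Helper70.KX.Ell
import Pool.Agent.Helper15.GT.RBase
import Pool.Agent.Helper15.GT.Ruled2
import Pool.Agent.Helper21.TZ.Main

/-!
# B4: elliptic surfaces over the projective line, the property for Albanese trivial cycles
-/

set_option linter.unusedSectionVars false

namespace Pool.Agent.Helper70.B4

open VC _root_.VF Function Polynomial
open Pool.Agent.Helper21.TO Pool.Agent.Helper21.TB Pool.Agent.Helper15.GT Pool.Agent.Helper70.KX

universe u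

variable {k : Type u} [Field k] [IsAlgClosed k] [CharZero k]

lemma vpj_mono {F : Type u} [Field F] [Algebra k F] {p q : ℕ} (h : VPJ k F p) (hpq : p ≤ q) : VPJ k F q :=
  fun M ξ hξ n hn => h M ξ hξ n (by omega)

lemma gen_over {E : Type u} [Field E] [Algebra k E] (l x y : E) (hgen : IntermediateField.adjoin k {l, x, y} = ⊤) :
    IntermediateField.adjoin (IntermediateField.adjoin k {l}) {x, y} = ⊤ := by
  let K := IntermediateField.adjoin k {l}
  let l' : K := ⟨l, IntermediateField.mem_adjoin_simple_self k l⟩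
  have h : IntermediateField.adjoin K {x, y} = ⊤ := by
    rw [eq_top_iff]
    intro z _
    have hz : z ∈ IntermediateField.adjoin k {l, x, y} := by
      rw [hgen]
      exact IntermediateField.mem_top
    have hle : IntermediateField.adjoin k {l, x, y} ≤ (IntermediateField.adjoin K {x, y}).restrictScalars k := by
      rw [IntermediateField.adjoin_le_iff]
      rintro z (rfl | rfl | rfl)
      · exact (IntermediateField.adjoin K {x, y}).algebraMap_mem l'
      · exact IntermediateField.subset_adjoin K _ (Or.inl rfl)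
      · exact IntermediateField.subset_adjoin K _ (Or.inr rfl)
    exact hle hz
  exact h

/-- A minimal Weierstrass equation over the projective line. -/
theorem vpj_min (N : ℕ) (hN : 1 ≤ N) (A B : k[X]) (hA : A.natDegree ≤ 4 * N) (hB : B.natDegree ≤ 6 * N)
    (hinf : 4 * N < A.natDegree + 4 ∨ 6 * N < B.natDegree + 6)
    (hmin : ∀ c : k, ¬ ((X - C c) ^ 4 ∣ A ∧ (X - C c) ^ 6 ∣ B)) (hd : 4 * A ^ 3 + 27 * B ^ 2 ≠ 0)
    {E : Type u} [Field E] [Algebra k E] (l x y : E) (hlx : AlgebraicIndependent k ![l, x])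
    (he : y ^ 2 = x ^ 3 + aeval l A * x + aeval l B) (hgen : IntermediateField.adjoin k {l, x, y} = ⊤) :
    VPJ k E (N - 1) := by
  classical
  let K := IntermediateField.adjoin k {l}
  let l' : K := ⟨l, IntermediateField.mem_adjoin_simple_self k l⟩
  have hl : Transcendental k l' := trans_gen (ind_fst hlx)
  have htop : IntermediateField.adjoin k {l'} = ⊤ := adjoin_gen_top l
  have hK : IsFunctionField k K := line_ff hl htop
  obtain ⟨P₀, hP₀, hP⟩ := exists_inf hl htop
  have hmap : ∀ p : k[X], algebraMap K E (aeval l' p) = aeval l p := by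
    intro p
    exact (aeval_algebraMap_apply E l' p).symm
  have hgen' : IntermediateField.adjoin K {x, y} = ⊤ := gen_over l x y hgen
  obtain ⟨L, Ω, _, _, _, _, _, _, _, _, T, f, ha, hb, hf, hfix, -⟩ := exists_fibration hK (aeval l' A) (aeval l' B) (by
    have h1 := aeval_ne hl hd
    simp only [map_add, map_mul, map_pow, map_ofNat] at h1
    exact h1) x y (ind_snd hlx) (by rw [hmap, hmap]; exact he) hgen'
  have hsum : ((Finsupp.single P₀ (N : ℤ)).sum fun _ m => m) + ((0 : ℕ) : ℤ) = ((N - 1 : ℕ) : ℤ) + 1 := by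
    rw [Finsupp.sum_single_index rfl]
    omega
  have hne : ∀ P : Place k K, P ≠ P₀ → (Finsupp.single P₀ (N : ℤ)) P = 0 := fun P hPP => by
    rw [Finsupp.single_apply, if_neg (Ne.symm hPP)]
  refine vpj_fib T (line_genus hl htop) (Finsupp.single P₀ (N : ℤ)) ?_ ?_ ?_ ?_ _ f hf hfix hsum
  · intro P h0
    rw [ha] at h0 ⊢
    have hA0 : A ≠ 0 := by
      rintro rfl
      exact h0 (map_zero _)
    by_cases hPP : P = P₀
    · rw [hPP, Finsupp.single_eq_same, ord_inf hl htop hP₀ hA0]
      omega
    · obtain ⟨c, hc⟩ := ord_fin hl htop (hP P hPP)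
      rw [hne P hPP, hc hA0]
      positivity
  · intro P h0
    rw [hb] at h0 ⊢
    have hB0 : B ≠ 0 := by
      rintro rfl
      exact h0 (map_zero _)
    by_cases hPP : P = P₀
    · rw [hPP, Finsupp.single_eq_same, ord_inf hl htop hP₀ hB0]
      omega
    · obtain ⟨c, hc⟩ := ord_fin hl htop (hP P hPP)
      rw [hne P hPP, hc hB0]
      positivity
  · intro P
    rw [ha, hb]
    by_cases hPP : P = P₀
    · rw [hPP, Finsupp.single_eq_same]
      rcases hinf with h | h
      · have hA0 : A ≠ 0 := by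
          rintro rfl
          rw [natDegree_zero] at h
          omega
        refine Or.inl ⟨aeval_ne hl hA0, ?_⟩
        rw [ord_inf hl htop hP₀ hA0]
        omega
      · have hB0 : B ≠ 0 := by
          rintro rfl
          rw [natDegree_zero] at h
          omega
        refine Or.inr ⟨aeval_ne hl hB0, ?_⟩
        rw [ord_inf hl htop hP₀ hB0]
        omega
    · obtain ⟨c, hc⟩ := ord_fin hl htop (hP P hPP)
      rw [hne P hPP]
      by_cases hA' : (X - C c) ^ 4 ∣ A
      · have hB' : ¬ (X - C c) ^ 6 ∣ B := fun h => hmin c ⟨hA', h⟩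
        have hB0 : B ≠ 0 := by
          rintro rfl
          exact hB' (dvd_zero _)
        refine Or.inr ⟨aeval_ne hl hB0, ?_⟩
        rw [hc hB0]
        have h1 := (le_rootMultiplicity_iff hB0 (n := 6) (a := c)).not.mpr hB'
        omega
      · have hA0 : A ≠ 0 := by
          rintro rfl
          exact hA' (dvd_zero _)
        refine Or.inl ⟨aeval_ne hl hA0, ?_⟩
        rw [hc hA0]
        have h1 := (le_rootMultiplicity_iff hA0 (n := 4) (a := c)).not.mpr hA'
        omega
  · rintro ⟨u, hu, h⟩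
    have h1 : FF.dv hK u = Finsupp.single P₀ (N : ℤ) := by
      ext P
      rw [FF.dv_apply]
      exact h P
    have h2 := FF.deg_dv hK hu
    rw [h1, FF.deg_single] at h2
    omega

/-- A Weierstrass equation with constant coefficients over the projective line. -/
theorem vpj_cst0 (α β : k) (hd : 4 * α ^ 3 + 27 * β ^ 2 ≠ 0)
    {E : Type u} [Field E] [Algebra k E] (l x y : E) (hlx : AlgebraicIndependent k ![l, x])
    (he : y ^ 2 = x ^ 3 + algebraMap k E α * x + algebraMap k E β)
    (hgen : IntermediateField.adjoin k {l, x, y} = ⊤) : VPJ k E 0 := by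
  classical
  let K := IntermediateField.adjoin k {l}
  let l' : K := ⟨l, IntermediateField.mem_adjoin_simple_self k l⟩
  have hl : Transcendental k l' := trans_gen (ind_fst hlx)
  have htop : IntermediateField.adjoin k {l'} = ⊤ := adjoin_gen_top l
  have hK : IsFunctionField k K := line_ff hl htop
  have hgen' : IntermediateField.adjoin K {x, y} = ⊤ := gen_over l x y hgen
  obtain ⟨L, Ω, _, _, _, _, _, _, _, _, T, f, ha, hb, hf, hfix, hfix'⟩ := exists_fibration hK (algebraMap k K α)
    (algebraMap k K β) (by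
      intro h
      apply hd
      apply (algebraMap k K).injective
      rw [map_add, map_mul, map_mul, map_pow, map_pow, map_ofNat, map_ofNat, map_zero]
      exact h) x y (ind_snd hlx) (by
      rw [← IsScalarTower.algebraMap_apply k K E, ← IsScalarTower.algebraMap_apply k K E]
      exact he) hgen'
  exact Pool.Agent.Helper21.TZ.vpj_cst T (line_genus hl htop) ha hb _ f hf hfix hfix'

/-- An elliptic surface over the projective line with coefficients of degrees at most eight and twelve. -/
theorem vpj_wei (A B : k[X]) (hA : A.natDegree ≤ 8) (hB : B.natDegree ≤ 12) (hd : 4 * A ^ 3 + 27 * B ^ 2 ≠ 0)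
    {E : Type u} [Field E] [Algebra k E] (l x y : E) (hlx : AlgebraicIndependent k ![l, x])
    (he : y ^ 2 = x ^ 3 + aeval l A * x + aeval l B) (hgen : IntermediateField.adjoin k {l, x, y} = ⊤) :
    VPJ k E 1 := by
  classical
  have h0 : A ≠ 0 ∨ B ≠ 0 := by
    by_contra hcon
    push Not at hcon
    apply hd
    rw [hcon.1, hcon.2]
    ring
  obtain ⟨U, A', B', hU, hA', hB', hmin⟩ := exists_red _ A B h0 rfl
  have hle : ∀ (p : k[X]) (m : ℕ), p.natDegree ≤ (p * U ^ m).natDegree := by
    intro p m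
    by_cases hp : p = 0
    · rw [hp, zero_mul]
    · rw [natDegree_mul hp (pow_ne_zero _ hU)]
      omega
  have hA8 : A'.natDegree ≤ 8 := (hle A' 4).trans (by rw [← hA']; exact hA)
  have hB12 : B'.natDegree ≤ 12 := (hle B' 6).trans (by rw [← hB']; exact hB)
  have hd' : 4 * A' ^ 3 + 27 * B' ^ 2 ≠ 0 := by
    intro h
    apply hd
    rw [hA', hB']
    linear_combination U ^ 12 * h
  have hl : Transcendental k l := ind_fst hlx
  have hv : aeval l U ≠ 0 := aeval_ne hl hU
  obtain ⟨v, hv'⟩ : ∃ v, v = aeval l U := ⟨_, rfl⟩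
  rw [← hv'] at hv
  have hvl : v ∈ IntermediateField.adjoin k {l} := by
    rw [hv']
    exact (IntermediateField.algebra_adjoin_le_adjoin k {l}) (aeval_mem_adjoin_singleton k l)
  -- the minimal equation
  have he' : (y / v ^ 3) ^ 2 = (x / v ^ 2) ^ 3 + aeval l A' * (x / v ^ 2) + aeval l B' := by
    have h1 : y ^ 2 = x ^ 3 + v ^ 4 * aeval l A' * x + v ^ 6 * aeval l B' := by
      rw [he, hA', hB', hv']
      simp only [map_mul, map_pow]
      ring
    field_simp
    linear_combination h1
  have hxv : AlgebraicIndependent k ![l, x / v ^ 2] := by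
    refine ind_of hl ?_
    intro h
    apply ind_snd hlx
    have h2 : x = x / v ^ 2 * v ^ 2 := by field_simp
    rw [h2]
    refine h.mul (IsAlgebraic.pow ?_ 2)
    exact isAlgebraic_algebraMap (⟨v, hvl⟩ : IntermediateField.adjoin k {l})
  have hgen' : IntermediateField.adjoin k {l, x / v ^ 2, y / v ^ 3} = ⊤ := by
    rw [eq_top_iff, ← hgen, IntermediateField.adjoin_le_iff]
    have hl1 : l ∈ IntermediateField.adjoin k {l, x / v ^ 2, y / v ^ 3} :=
      IntermediateField.subset_adjoin k _ (Or.inl rfl)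
    have hv2 : v ∈ IntermediateField.adjoin k {l, x / v ^ 2, y / v ^ 3} := by
      have h1 : IntermediateField.adjoin k {l} ≤ IntermediateField.adjoin k {l, x / v ^ 2, y / v ^ 3} := by
        rw [IntermediateField.adjoin_simple_le_iff]
        exact hl1
      exact h1 hvl
    rintro z (hz | hz | hz)
    · rw [hz]
      exact hl1
    · rw [hz]
      have h1 : x / v ^ 2 ∈ IntermediateField.adjoin k {l, x / v ^ 2, y / v ^ 3} :=
        IntermediateField.subset_adjoin k _ (Or.inr (Or.inl rfl))
      have h2 := mul_mem h1 (pow_mem hv2 2)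
      rwa [div_mul_cancel₀ _ (pow_ne_zero 2 hv)] at h2
    · rw [Set.mem_singleton_iff.mp hz]
      have h1 : y / v ^ 3 ∈ IntermediateField.adjoin k {l, x / v ^ 2, y / v ^ 3} :=
        IntermediateField.subset_adjoin k _ (Or.inr (Or.inr rfl))
      have h2 := mul_mem h1 (pow_mem hv2 3)
      rwa [div_mul_cancel₀ _ (pow_ne_zero 3 hv)] at h2
  by_cases hcst : A'.natDegree = 0 ∧ B'.natDegree = 0
  · obtain ⟨α, hα⟩ := natDegree_eq_zero.mp hcst.1
    obtain ⟨β, hβ⟩ := natDegree_eq_zero.mp hcst.2
    refine vpj_mono (vpj_cst0 α β ?_ l (x / v ^ 2) (y / v ^ 3) hxv ?_ hgen') (by omega)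
    · intro h
      apply hd'
      rw [← hα, ← hβ, ← map_pow, ← map_pow, ← map_ofNat C 4, ← map_ofNat C 27, ← C_mul, ← C_mul, ← C_add, h, C_0]
    · rw [he', ← hα, ← hβ, aeval_C, aeval_C]
  by_cases hN : A'.natDegree ≤ 4 ∧ B'.natDegree ≤ 6
  · refine vpj_mono (vpj_min 1 le_rfl A' B' hN.1 hN.2 ?_
      hmin hd' l (x / v ^ 2) (y / v ^ 3) hxv he' hgen') (by omega)
    omega
  · refine vpj_mono (vpj_min 2 one_le_two A' B' hA8 hB12 ?_
      hmin hd' l (x / v ^ 2) (y / v ^ 3) hxv he' hgen') (by omega)
    omega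

/-- An elliptic surface over the projective line with the points of order two defined over the base, as
polynomials of degree at most four. -/
theorem vpj_leg (e : Fin 3 → k[X]) (hdeg : ∀ i, (e i).natDegree ≤ 4) (hinj : Injective e)
    {E : Type u} [Field E] [Algebra k E] (l x y : E) (hlx : AlgebraicIndependent k ![l, x])
    (he : y ^ 2 = ∏ i, (x - aeval l (e i))) (hgen : IntermediateField.adjoin k {l, x, y} = ⊤) :
    VPJ k E 1 := by
  classical
  have h3 : ((1 / 3 : k)) * 3 = 1 := by norm_num
  have h3' : (C (1 / 3 : k)) * 3 = (1 : k[X]) := by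
    rw [← map_ofNat C 3, ← C_mul, h3, C_1]
  -- the centre
  obtain ⟨m, hm⟩ : ∃ m : k[X], m = C (1 / 3 : k) * (e 0 + e 1 + e 2) := ⟨_, rfl⟩
  have hm3 : 3 * m = e 0 + e 1 + e 2 := by
    rw [hm]
    linear_combination (e 0 + e 1 + e 2) * h3'
  have hmdeg : m.natDegree ≤ 4 := by
    rw [hm]
    refine (natDegree_C_mul_le _ _).trans ?_
    refine (natDegree_add_le _ _).trans (max_le ?_ (hdeg 2))
    exact (natDegree_add_le _ _).trans (max_le (hdeg 0) (hdeg 1))
  have hfd : ∀ i, (e i - m).natDegree ≤ 4 := fun i =>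
    (natDegree_sub_le _ _).trans (max_le (hdeg i) hmdeg)
  obtain ⟨A, hA⟩ : ∃ A : k[X], A = (e 0 - m) * (e 1 - m) + (e 0 - m) * (e 2 - m) + (e 1 - m) * (e 2 - m) := ⟨_, rfl⟩
  obtain ⟨B, hB⟩ : ∃ B : k[X], B = -((e 0 - m) * (e 1 - m) * (e 2 - m)) := ⟨_, rfl⟩
  have hmul : ∀ (p q : k[X]) (a b : ℕ), p.natDegree ≤ a → q.natDegree ≤ b → (p * q).natDegree ≤ a + b :=
    fun p q a b hp hq => natDegree_mul_le.trans (by omega)
  have hA8 : A.natDegree ≤ 8 := by
    rw [hA]
    refine (natDegree_add_le _ _).trans (max_le ((natDegree_add_le _ _).trans (max_le ?_ ?_)) ?_)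
    · exact hmul _ _ 4 4 (hfd 0) (hfd 1)
    · exact hmul _ _ 4 4 (hfd 0) (hfd 2)
    · exact hmul _ _ 4 4 (hfd 1) (hfd 2)
  have hB12 : B.natDegree ≤ 12 := by
    rw [hB, natDegree_neg]
    exact hmul _ _ 8 4 (hmul _ _ 4 4 (hfd 0) (hfd 1)) (hfd 2)
  have hd : 4 * A ^ 3 + 27 * B ^ 2 = -(((e 0 - e 1) * (e 0 - e 2) * (e 1 - e 2)) ^ 2) := by
    have he2 : e 2 = 3 * m - e 0 - e 1 := by linear_combination -hm3
    rw [hA, hB, he2]
    ring
  have hd0 : 4 * A ^ 3 + 27 * B ^ 2 ≠ 0 := by
    rw [hd]
    refine neg_ne_zero.mpr (pow_ne_zero _ (mul_ne_zero (mul_ne_zero ?_ ?_) ?_))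
    · exact sub_ne_zero.mpr fun h => by simpa using hinj h
    · exact sub_ne_zero.mpr fun h => by simpa using hinj h
    · exact sub_ne_zero.mpr fun h => by simpa using hinj h
  have hl : Transcendental k l := ind_fst hlx
  obtain ⟨c, hc⟩ : ∃ c, c = aeval l m := ⟨_, rfl⟩
  have hcl : c ∈ IntermediateField.adjoin k {l} := by
    rw [hc]
    exact (IntermediateField.algebra_adjoin_le_adjoin k {l}) (aeval_mem_adjoin_singleton k l)
  refine vpj_wei A B hA8 hB12 hd0 l (x - c) y ?_ ?_ ?_
  · refine ind_of hl ?_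
    intro h
    apply ind_snd hlx
    have h2 : x = (x - c) + c := by ring
    rw [h2]
    exact h.add (isAlgebraic_algebraMap (⟨c, hcl⟩ : IntermediateField.adjoin k {l}))
  · have e3 : 3 * c = aeval l (e 0) + aeval l (e 1) + aeval l (e 2) := by
      rw [hc, ← map_add, ← map_add, ← hm3, map_mul, map_ofNat]
    rw [he, Fin.prod_univ_three, hA, hB]
    simp only [map_add, map_mul, map_sub, map_neg, ← hc]
    linear_combination (x - c) ^ 2 * e3
  · rw [eq_top_iff, ← hgen, IntermediateField.adjoin_le_iff]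
    have hl1 : l ∈ IntermediateField.adjoin k {l, x - c, y} :=
      IntermediateField.subset_adjoin k _ (Or.inl rfl)
    have hc2 : c ∈ IntermediateField.adjoin k {l, x - c, y} := by
      have h1 : IntermediateField.adjoin k {l} ≤ IntermediateField.adjoin k {l, x - c, y} := by
        rw [IntermediateField.adjoin_simple_le_iff]
        exact hl1
      exact h1 hcl
    rintro z (hz | hz | hz)
    · rw [hz]
      exact hl1
    · rw [hz]
      have h1 : x - c ∈ IntermediateField.adjoin k {l, x - c, y} :=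
        IntermediateField.subset_adjoin k _ (Or.inr (Or.inl rfl))
      have h2 := add_mem h1 hc2
      rwa [sub_add_cancel] at h2
    · rw [Set.mem_singleton_iff.mp hz]
      exact IntermediateField.subset_adjoin k _ (Or.inr (Or.inr rfl))

end Pool.Agent.Helper70.B4
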