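import Mathlib
import Pool.Agent.Helper9.NS
import Pool.Agent.Helper70.B4.Ell

/-!
# B4: double planes branched along six lines
-/

set_option linter.unusedSectionVars false

namespace Pool.Agent.Helper70.B4

open VC _root_.VF Function Polynomial
open Pool.Agent.Helper21.TO Pool.Agent.Helper21.TB Pool.Agent.Helper15.GT Pool.Agent.Helper70.KX

universe u

variable {k : Type u} [Field k]

lemma mem1 {F : Type u} [Field F] [Algebra k F] (a b c : F) : a ∈ IntermediateField.adjoin k {a, b, c} :=
  IntermediateField.subset_adjoin k _ (Or.inl rfl)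

lemma mem2 {F : Type u} [Field F] [Algebra k F] (a b c : F) : b ∈ IntermediateField.adjoin k {a, b, c} :=
  IntermediateField.subset_adjoin k _ (Or.inr (Or.inl rfl))

lemma mem3 {F : Type u} [Field F] [Algebra k F] (a b c : F) : c ∈ IntermediateField.adjoin k {a, b, c} :=
  IntermediateField.subset_adjoin k _ (Or.inr (Or.inr rfl))

lemma gen_change {F : Type u} [Field F] [Algebra k F] {a b c a' b' c' : F}
    (h : IntermediateField.adjoin k {a, b, c} = ⊤) (ha : a ∈ IntermediateField.adjoin k {a', b', c'})
    (hb : b ∈ IntermediateField.adjoin k {a', b', c'}) (hc : c ∈ IntermediateField.adjoin k {a', b', c'}) :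
    IntermediateField.adjoin k {a', b', c'} = ⊤ := by
  rw [eq_top_iff, ← h, IntermediateField.adjoin_le_iff]
  rintro z (hz | hz | hz)
  · rw [hz]
    exact ha
  · rw [hz]
    exact hb
  · rw [Set.mem_singleton_iff.mp hz]
    exact hc

lemma pol_mem {F : Type u} [Field F] [Algebra k F] (u : F) {s : Set F} (hu : u ∈ IntermediateField.adjoin k s)
    (p : k[X]) : aeval u p ∈ IntermediateField.adjoin k s := by
  have h1 : IntermediateField.adjoin k {u} ≤ IntermediateField.adjoin k s := by
    rw [IntermediateField.adjoin_simple_le_iff]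
    exact hu
  exact h1 ((IntermediateField.algebra_adjoin_le_adjoin k {u}) (aeval_mem_adjoin_singleton k u))

/-- Three generators of a field of transcendence degree two, the third one algebraic over the others. -/
lemma ind_gen {F : Type u} [Field F] [Algebra k F] {s t a b c : F} (hst : AlgebraicIndependent k ![s, t])
    (hgen : IntermediateField.adjoin k {a, b, c} = ⊤) (hc : IsAlgebraic (IntermediateField.adjoin k {a, b}) c) :
    AlgebraicIndependent k ![a, b] := by
  refine ind_of_gen hst ⟨fun z => ?_⟩
  let K := IntermediateField.adjoin k {a, b}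
  have hz : z ∈ IntermediateField.adjoin k {a, b, c} := by
    rw [hgen]
    exact IntermediateField.mem_top
  have hle : IntermediateField.adjoin k {a, b, c} ≤ (IntermediateField.adjoin K {c}).restrictScalars k := by
    rw [IntermediateField.adjoin_le_iff]
    rintro z (hz | hz | hz)
    · rw [hz]
      exact (IntermediateField.adjoin K {c}).algebraMap_mem
        ⟨a, IntermediateField.subset_adjoin k _ (Or.inl rfl)⟩
    · rw [hz]
      exact (IntermediateField.adjoin K {c}).algebraMap_mem
        ⟨b, IntermediateField.subset_adjoin k _ (Or.inr rfl)⟩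
    · rw [Set.mem_singleton_iff.mp hz]
      exact IntermediateField.subset_adjoin K _ rfl
  have h1 : z ∈ IntermediateField.adjoin K {c} := hle hz
  have : FiniteDimensional K (IntermediateField.adjoin K {c}) :=
    IntermediateField.adjoin.finiteDimensional hc.isIntegral
  have h2 : IsAlgebraic K (⟨z, h1⟩ : IntermediateField.adjoin K {c}) :=
    Algebra.IsAlgebraic.isAlgebraic (R := K) (A := IntermediateField.adjoin K {c}) _
  exact h2.algebraMap (A := F)

lemma ind_gen' {F : Type u} [Field F] [Algebra k F] {s t a b c d : F} (hst : AlgebraicIndependent k ![s, t])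
    (hgen : IntermediateField.adjoin k {a, b, c} = ⊤) (hd : d ∈ IntermediateField.adjoin k {a, b})
    (hc : c ^ 2 = d) : AlgebraicIndependent k ![a, b] := by
  refine ind_gen hst hgen ?_
  refine IsAlgebraic.of_pow two_pos ?_
  rw [hc]
  exact isAlgebraic_algebraMap (⟨d, hd⟩ : IntermediateField.adjoin k {a, b})

variable [IsAlgClosed k] [CharZero k]

/-- The ruled case: the field is generated by `u`, by an element algebraic over `k (u)` and by `x`. -/
theorem vpj_rul2 {F : Type u} [Field F] [Algebra k F] (u w x : F) (hu : Transcendental k u)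
    (hw : IsAlgebraic (IntermediateField.adjoin k {u}) w) (hgen : IntermediateField.adjoin k {u, w, x} = ⊤) :
    VPJ k F 0 := by
  let K := IntermediateField.adjoin k {u}
  let u' : K := ⟨u, IntermediateField.mem_adjoin_simple_self k u⟩
  have hK : IsFunctionField k K := line_ff (trans_gen hu) (adjoin_gen_top u)
  let L := IntermediateField.adjoin K {w}
  have : FiniteDimensional K L := IntermediateField.adjoin.finiteDimensional hw.isIntegral
  have hL : IsFunctionField k L := _root_.VF.ff_ext hK
  have : IsScalarTower k L F := IsScalarTower.of_algebraMap_eq fun _ => rfl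
  refine vpj_ruled hL (IsScalarTower.toAlgHom k L F) x ?_
  rw [eq_top_iff, ← hgen, IntermediateField.adjoin_le_iff]
  have hr : ∀ z : F, z ∈ IntermediateField.adjoin K {w} →
      z ∈ IntermediateField.adjoin k (Set.range (IsScalarTower.toAlgHom k L F) ∪ {x}) := fun z hz =>
    IntermediateField.subset_adjoin k _ (Or.inl ⟨⟨z, hz⟩, rfl⟩)
  rintro z (hz | hz | hz)
  · rw [hz]
    exact hr u ((IntermediateField.adjoin K {w}).algebraMap_mem u')
  · rw [hz]
    exact hr w (IntermediateField.mem_adjoin_simple_self K w)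
  · rw [Set.mem_singleton_iff.mp hz]
    exact IntermediateField.subset_adjoin k _ (Or.inr rfl)

lemma sub_pol_ne {F : Type u} [Field F] [Algebra k F] {u v : F} (huv : AlgebraicIndependent k ![u, v])
    (e : k[X]) : v - aeval u e ≠ 0 := by
  intro h
  apply ind_snd huv
  have h1 : v = aeval u e := by linear_combination h
  rw [h1]
  exact isAlgebraic_algebraMap (⟨aeval u e, pol_mem u (IntermediateField.mem_adjoin_simple_self k u) e⟩ :
    IntermediateField.adjoin k {u})

theorem q0 {D : k[X]} {F : Type u} [Field F] [Algebra k F] {u v w : F}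
    (huv : AlgebraicIndependent k ![u, v]) (hw : w ^ 2 = aeval u D)
    (hgen : IntermediateField.adjoin k {u, v, w} = ⊤) : VPJ k F 1 := by
  refine vpj_mono (vpj_rul2 u w v (ind_fst huv) ?_ (gen_change hgen (mem1 _ _ _) (mem3 _ _ _) (mem2 _ _ _)))
    zero_le_one
  refine IsAlgebraic.of_pow two_pos ?_
  rw [hw]
  exact isAlgebraic_algebraMap (⟨aeval u D, pol_mem u (IntermediateField.mem_adjoin_simple_self k u) D⟩ :
    IntermediateField.adjoin k {u})

theorem q1 {D a : k[X]} (hD : D ≠ 0) {F : Type u} [Field F] [Algebra k F] {u v w : F}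
    (huv : AlgebraicIndependent k ![u, v]) (hw : w ^ 2 = aeval u D * (v - aeval u a))
    (hgen : IntermediateField.adjoin k {u, v, w} = ⊤) : VPJ k F 1 := by
  have hD' : aeval u D ≠ 0 := aeval_ne (ind_fst huv) hD
  refine vpj_mono (vpj_rul2 u 1 w (ind_fst huv) isAlgebraic_one
    (gen_change hgen (mem1 _ _ _) ?_ (mem3 _ _ _))) zero_le_one
  have h1 : v = aeval u a + w ^ 2 / aeval u D := by
    rw [hw]
    field_simp
    ring
  have h2 : aeval u a + w ^ 2 / aeval u D ∈ IntermediateField.adjoin k {u, 1, w} :=
    add_mem (pol_mem u (mem1 _ _ _) a) (div_mem (pow_mem (mem3 _ _ _) 2) (pol_mem u (mem1 _ _ _) D))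
  rwa [← h1] at h2

theorem q2 {D a b : k[X]} (hD : D ≠ 0) (hab : a ≠ b) {F : Type u} [Field F] [Algebra k F] {u v w : F}
    (huv : AlgebraicIndependent k ![u, v]) (hw : w ^ 2 = aeval u D * ((v - aeval u a) * (v - aeval u b)))
    (hgen : IntermediateField.adjoin k {u, v, w} = ⊤) : VPJ k F 1 := by
  have hD' : aeval u D ≠ 0 := aeval_ne (ind_fst huv) hD
  have ha := sub_pol_ne huv a
  have hb := sub_pol_ne huv b
  obtain ⟨t, ht⟩ : ∃ t, t = w / (v - aeval u a) := ⟨_, rfl⟩
  have ht1 : t * (v - aeval u a) = w := by rw [ht, div_mul_cancel₀ _ ha]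
  have ht2 : t ^ 2 * (v - aeval u a) = aeval u D * (v - aeval u b) := by
    apply mul_right_cancel₀ ha
    have h1 : t ^ 2 * (v - aeval u a) * (v - aeval u a) = (t * (v - aeval u a)) ^ 2 := by ring
    rw [h1, ht1, hw]
    ring
  have hne : t ^ 2 - aeval u D ≠ 0 := by
    intro h
    have h1 : aeval u D * aeval u (a - b) = 0 := by
      rw [map_sub]
      linear_combination (v - aeval u a) * h - ht2
    rcases mul_eq_zero.mp h1 with h2 | h2
    · exact hD' h2
    · exact aeval_ne (ind_fst huv) (sub_ne_zero.mpr hab) h2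
  have hv : v = (aeval u a * t ^ 2 - aeval u D * aeval u b) / (t ^ 2 - aeval u D) := by
    rw [eq_div_iff hne]
    linear_combination ht2
  have hvm : v ∈ IntermediateField.adjoin k {u, 1, t} := by
    have h2 : (aeval u a * t ^ 2 - aeval u D * aeval u b) / (t ^ 2 - aeval u D) ∈
        IntermediateField.adjoin k {u, 1, t} :=
      div_mem (sub_mem (mul_mem (pol_mem u (mem1 _ _ _) a) (pow_mem (mem3 _ _ _) 2))
        (mul_mem (pol_mem u (mem1 _ _ _) D) (pol_mem u (mem1 _ _ _) b)))
        (sub_mem (pow_mem (mem3 _ _ _) 2) (pol_mem u (mem1 _ _ _) D))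
    rwa [← hv] at h2
  refine vpj_mono (vpj_rul2 u 1 t (ind_fst huv) isAlgebraic_one
    (gen_change hgen (mem1 _ _ _) hvm ?_)) zero_le_one
  have h3 := mul_mem (mem3 u 1 t) (sub_mem hvm (pol_mem u (mem1 _ _ _) a))
  rwa [ht1] at h3

theorem q3 {D a b c : k[X]} (hD : D ≠ 0) (hab : a ≠ b) (hac : a ≠ c) (hbc : b ≠ c)
    (dD : D.natDegree ≤ 2) (da : a.natDegree ≤ 1) (db : b.natDegree ≤ 1) (dc : c.natDegree ≤ 1)
    {F : Type u} [Field F] [Algebra k F] {u v w : F}
    (huv : AlgebraicIndependent k ![u, v])
    (hw : w ^ 2 = aeval u D * ((v - aeval u a) * ((v - aeval u b) * (v - aeval u c))))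
    (hgen : IntermediateField.adjoin k {u, v, w} = ⊤) : VPJ k F 1 := by
  have hD' : aeval u D ≠ 0 := aeval_ne (ind_fst huv) hD
  have hgen' : IntermediateField.adjoin k {u, aeval u D * v, aeval u D * w} = ⊤ := by
    have hDm : aeval u D ∈ IntermediateField.adjoin k {u, aeval u D * v, aeval u D * w} :=
      pol_mem u (mem1 _ _ _) D
    refine gen_change hgen (mem1 _ _ _) ?_ ?_
    · have h := div_mem (mem2 u (aeval u D * v) (aeval u D * w)) hDm
      rwa [mul_div_cancel_left₀ _ hD'] at h
    · have h := div_mem (mem3 u (aeval u D * v) (aeval u D * w)) hDm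
      rwa [mul_div_cancel_left₀ _ hD'] at h
  have hy : (aeval u D * w) ^ 2 = (aeval u D * v - aeval u (D * a)) * (aeval u D * v - aeval u (D * b)) *
      (aeval u D * v - aeval u (D * c)) := by
    simp only [map_mul]
    linear_combination aeval u D ^ 2 * hw
  have hdg : ∀ p : k[X], p.natDegree ≤ 1 → (D * p).natDegree ≤ 4 := fun p hp =>
    natDegree_mul_le.trans (by omega)
  refine vpj_leg ![D * a, D * b, D * c] ?_ ?_ u (aeval u D * v) (aeval u D * w) ?_ ?_ hgen'
  · intro i
    fin_cases i
    · exact hdg a da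
    · exact hdg b db
    · exact hdg c dc
  · intro i j hij
    fin_cases i <;> fin_cases j
    · rfl
    · exact absurd (mul_left_cancel₀ hD hij) hab
    · exact absurd (mul_left_cancel₀ hD hij) hac
    · exact absurd (mul_left_cancel₀ hD hij) hab.symm
    · rfl
    · exact absurd (mul_left_cancel₀ hD hij) hbc
    · exact absurd (mul_left_cancel₀ hD hij) hac.symm
    · exact absurd (mul_left_cancel₀ hD hij) hbc.symm
    · rfl
  · refine ind_gen' huv hgen' ?_ hy
    have hu1 : u ∈ IntermediateField.adjoin k {u, aeval u D * v} :=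
      IntermediateField.subset_adjoin k _ (Or.inl rfl)
    have hx1 : aeval u D * v ∈ IntermediateField.adjoin k {u, aeval u D * v} :=
      IntermediateField.subset_adjoin k _ (Or.inr rfl)
    exact mul_mem (mul_mem (sub_mem hx1 (pol_mem u hu1 _)) (sub_mem hx1 (pol_mem u hu1 _)))
      (sub_mem hx1 (pol_mem u hu1 _))
  · rw [Fin.prod_univ_three]
    exact hy

theorem q4 {D a b c d : k[X]} (hD : D ≠ 0) (hab : a ≠ b) (hac : a ≠ c) (hbc : b ≠ c) (had : a ≠ d)
    (hbd : b ≠ d) (hcd : c ≠ d)
    (dD : D.natDegree ≤ 1) (da : a.natDegree ≤ 1) (db : b.natDegree ≤ 1) (dc : c.natDegree ≤ 1)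
    (dd : d.natDegree ≤ 1) {F : Type u} [Field F] [Algebra k F] {u v w : F}
    (huv : AlgebraicIndependent k ![u, v])
    (hw : w ^ 2 = aeval u D * ((v - aeval u a) * ((v - aeval u b) * ((v - aeval u c) * (v - aeval u d)))))
    (hgen : IntermediateField.adjoin k {u, v, w} = ⊤) : VPJ k F 1 := by
  have hD' : aeval u D ≠ 0 := aeval_ne (ind_fst huv) hD
  have hv := sub_pol_ne huv d
  obtain ⟨s, hs⟩ : ∃ s, s = (v - aeval u d)⁻¹ := ⟨_, rfl⟩
  have hs1 : s * (v - aeval u d) = 1 := by rw [hs, inv_mul_cancel₀ hv]
  have hs0 : s ≠ 0 := left_ne_zero_of_mul_eq_one hs1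
  obtain ⟨Δ, hΔ⟩ : ∃ Δ : k[X], Δ = D * ((d - a) * ((d - b) * (d - c))) := ⟨_, rfl⟩
  have hΔ0 : Δ ≠ 0 := by
    rw [hΔ]
    exact mul_ne_zero hD (mul_ne_zero (sub_ne_zero.mpr had.symm) (mul_ne_zero (sub_ne_zero.mpr hbd.symm)
      (sub_ne_zero.mpr hcd.symm)))
  have hΔ' : aeval u Δ ≠ 0 := aeval_ne (ind_fst huv) hΔ0
  have hgen' : IntermediateField.adjoin k {u, aeval u Δ * s, aeval u Δ * (w * s ^ 2)} = ⊤ := by
    have hDm : aeval u Δ ∈ IntermediateField.adjoin k {u, aeval u Δ * s, aeval u Δ * (w * s ^ 2)} :=
      pol_mem u (mem1 _ _ _) Δ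
    have hsm : s ∈ IntermediateField.adjoin k {u, aeval u Δ * s, aeval u Δ * (w * s ^ 2)} := by
      have h := div_mem (mem2 u (aeval u Δ * s) (aeval u Δ * (w * s ^ 2))) hDm
      rwa [mul_div_cancel_left₀ _ hΔ'] at h
    refine gen_change hgen (mem1 _ _ _) ?_ ?_
    · have h := add_mem (inv_mem hsm) (pol_mem u (mem1 u (aeval u Δ * s) (aeval u Δ * (w * s ^ 2))) d)
      have e : s⁻¹ + aeval u d = v := by
        rw [hs, inv_inv]
        ring
      rwa [e] at h
    · have h := div_mem (div_mem (mem3 u (aeval u Δ * s) (aeval u Δ * (w * s ^ 2))) hDm) (pow_mem hsm 2)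
      rwa [mul_div_cancel_left₀ _ hΔ', mul_div_cancel_right₀ _ (pow_ne_zero 2 hs0)] at h
  have hy : (aeval u Δ * (w * s ^ 2)) ^ 2 = (aeval u Δ * s - aeval u (-(D * ((d - b) * (d - c))))) *
      (aeval u Δ * s - aeval u (-(D * ((d - a) * (d - c))))) *
      (aeval u Δ * s - aeval u (-(D * ((d - a) * (d - b))))) := by
    have h1 : ∀ e : k[X], s * (v - aeval u e) = aeval u (d - e) * s + 1 := by
      intro e
      rw [map_sub]
      linear_combination hs1
    have h2 : (w * s ^ 2) ^ 2 = aeval u D * ((aeval u (d - a) * s + 1) * (aeval u (d - b) * s + 1) *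
        (aeval u (d - c) * s + 1)) := by
      rw [← h1, ← h1, ← h1, mul_pow, hw]
      linear_combination aeval u D * (v - aeval u a) * (v - aeval u b) * (v - aeval u c) * s ^ 3 * hs1
    rw [mul_pow, h2, hΔ]
    simp only [map_mul, map_neg]
    ring
  have hdm : ∀ p q : k[X], p.natDegree ≤ 1 → q.natDegree ≤ 1 → (-(D * ((d - p) * (d - q)))).natDegree ≤ 4 := by
    intro p q hp hq
    have h1 : (d - p).natDegree ≤ 1 := (natDegree_sub_le _ _).trans (max_le dd hp)
    have h2 : (d - q).natDegree ≤ 1 := (natDegree_sub_le _ _).trans (max_le dd hq)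
    have h3 : ((d - p) * (d - q)).natDegree ≤ 2 := natDegree_mul_le.trans (by omega)
    rw [natDegree_neg]
    exact natDegree_mul_le.trans (by omega)
  have na : d - a ≠ 0 := sub_ne_zero.mpr had.symm
  have nb : d - b ≠ 0 := sub_ne_zero.mpr hbd.symm
  have nc : d - c ≠ 0 := sub_ne_zero.mpr hcd.symm
  have hne1 : -(D * ((d - b) * (d - c))) ≠ -(D * ((d - a) * (d - c))) := by
    intro h
    have h1 := mul_right_cancel₀ nc (mul_left_cancel₀ hD (neg_injective h))
    exact hab (by linear_combination h1)
  have hne2 : -(D * ((d - b) * (d - c))) ≠ -(D * ((d - a) * (d - b))) := by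
    intro h
    have h1 := mul_left_cancel₀ hD (neg_injective h)
    have h2 : (d - b) * (d - c) = (d - b) * (d - a) := by rw [h1, mul_comm]
    have h3 := mul_left_cancel₀ nb h2
    exact hac (by linear_combination h3)
  have hne3 : -(D * ((d - a) * (d - c))) ≠ -(D * ((d - a) * (d - b))) := by
    intro h
    have h1 := mul_left_cancel₀ na (mul_left_cancel₀ hD (neg_injective h))
    exact hbc (by linear_combination h1)
  refine vpj_leg ![-(D * ((d - b) * (d - c))), -(D * ((d - a) * (d - c))), -(D * ((d - a) * (d - b)))]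
    ?_ ?_ u (aeval u Δ * s) (aeval u Δ * (w * s ^ 2)) ?_ ?_ hgen'
  · intro i
    fin_cases i
    · exact hdm b c db dc
    · exact hdm a c da dc
    · exact hdm a b da db
  · intro i j hij
    fin_cases i <;> fin_cases j
    · rfl
    · exact absurd hij hne1
    · exact absurd hij hne2
    · exact absurd hij.symm hne1
    · rfl
    · exact absurd hij hne3
    · exact absurd hij.symm hne2
    · exact absurd hij.symm hne3
    · rfl
  · refine ind_gen' huv hgen' ?_ hy
    have hu1 : u ∈ IntermediateField.adjoin k {u, aeval u Δ * s} :=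
      IntermediateField.subset_adjoin k _ (Or.inl rfl)
    have hx1 : aeval u Δ * s ∈ IntermediateField.adjoin k {u, aeval u Δ * s} :=
      IntermediateField.subset_adjoin k _ (Or.inr rfl)
    exact mul_mem (mul_mem (sub_mem hx1 (pol_mem u hu1 _)) (sub_mem hx1 (pol_mem u hu1 _)))
      (sub_mem hx1 (pol_mem u hu1 _))
  · rw [Fin.prod_univ_three]
    exact hy

/-- `w² = D (u) ∏ (v - e (u))` with at most four factors of degree at most one. -/
theorem vpj_q : ∀ (n : ℕ) (s : Multiset k[X]), s.card = n → n ≤ 4 → (∀ e ∈ s, natDegree e ≤ 1) →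
    ∀ D : k[X], D ≠ 0 → D.natDegree + n ≤ 5 → ∀ {F : Type u} [Field F] [Algebra k F] (u v w : F),
      AlgebraicIndependent k ![u, v] → w ^ 2 = aeval u D * (s.map fun e => v - aeval u e).prod →
      IntermediateField.adjoin k {u, v, w} = ⊤ → VPJ k F 1 := by
  classical
  intro n
  induction n using Nat.strong_induction_on with
  | _ n ih =>
    intro s hs hn he D hD hdeg F _ _ u v w huv hw hgen
    have hv := sub_pol_ne huv
    by_cases hnd : s.Nodup
    · obtain ⟨l, rfl⟩ : ∃ l : List k[X], (l : Multiset k[X]) = s := Quot.exists_rep s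
      rw [Multiset.coe_nodup] at hnd
      rw [Multiset.coe_card] at hs
      simp only [Multiset.mem_coe] at he
      rw [Multiset.map_coe, Multiset.prod_coe] at hw
      match l, hs, hnd, he, hw with
      | [], _, _, _, hw =>
        rw [List.map_nil, List.prod_nil, mul_one] at hw
        exact q0 huv hw hgen
      | [a], _, _, _, hw =>
        rw [List.map_cons, List.map_nil, List.prod_cons, List.prod_nil, mul_one] at hw
        exact q1 hD huv hw hgen
      | [a, b], _, hnd, _, hw =>
        rw [List.map_cons, List.map_cons, List.map_nil, List.prod_cons, List.prod_cons, List.prod_nil, mul_one] at hw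
        exact q2 hD (by simpa using hnd) huv hw hgen
      | [a, b, c], hs, hnd, he, hw =>
        rw [List.map_cons, List.map_cons, List.map_cons, List.map_nil, List.prod_cons, List.prod_cons,
          List.prod_cons, List.prod_nil, mul_one] at hw
        simp only [List.length_cons, List.length_nil] at hs
        simp only [List.nodup_cons, List.mem_cons, List.not_mem_nil, or_false, not_or, not_false_eq_true,
          List.nodup_nil, and_true] at hnd
        exact q3 hD hnd.1.1 hnd.1.2 hnd.2 (by omega) (he a (by simp)) (he b (by simp)) (he c (by simp)) huv hw hgen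
      | [a, b, c, d], hs, hnd, he, hw =>
        rw [List.map_cons, List.map_cons, List.map_cons, List.map_cons, List.map_nil, List.prod_cons,
          List.prod_cons, List.prod_cons, List.prod_cons, List.prod_nil, mul_one] at hw
        simp only [List.length_cons, List.length_nil] at hs
        simp only [List.nodup_cons, List.mem_cons, List.not_mem_nil, or_false, not_or, not_false_eq_true,
          List.nodup_nil, and_true] at hnd
        exact q4 hD hnd.1.1 hnd.1.2.1 hnd.2.1.1 hnd.1.2.2 hnd.2.1.2 hnd.2.2 (by omega) (he a (by simp))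
          (he b (by simp)) (he c (by simp)) (he d (by simp)) huv hw hgen
      | a :: b :: c :: d :: e :: l, hs, _, _, _ =>
        simp only [List.length_cons] at hs
        omega
    · rw [Multiset.nodup_iff_ne_cons_cons] at hnd
      push Not at hnd
      obtain ⟨a, t, rfl⟩ := hnd
      rw [Multiset.card_cons, Multiset.card_cons] at hs
      have ha := hv a
      refine ih t.card (by omega) t rfl (by omega) (fun e h => he e (Multiset.mem_cons_of_mem (Multiset.mem_cons_of_mem h)))
        D hD (by omega) u v (w / (v - aeval u a)) huv ?_ ?_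
      · rw [Multiset.map_cons, Multiset.map_cons, Multiset.prod_cons, Multiset.prod_cons] at hw
        rw [div_pow, hw]
        field_simp
      · have hm : v - aeval u a ∈ IntermediateField.adjoin k {u, v, w / (v - aeval u a)} :=
          sub_mem (mem2 _ _ _) (pol_mem u (mem1 _ _ _) a)
        refine gen_change hgen (mem1 _ _ _) (mem2 _ _ _) ?_
        have h1 := mul_mem (mem3 u v (w / (v - aeval u a))) hm
        rwa [div_mul_cancel₀ _ ha] at h1

/-- The value of the linear form with the coefficients `f`. -/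
lemma form_ne {F : Type u} [Field F] [Algebra k F] {u v : F} (huv : AlgebraicIndependent k ![u, v])
    {f : Fin 3 → k} (hf : f ≠ 0) :
    algebraMap k F (f 0) + algebraMap k F (f 1) * u + algebraMap k F (f 2) * v ≠ 0 := by
  by_cases h2 : f 2 = 0
  · rw [h2, map_zero, zero_mul, add_zero]
    have h1 : (C (f 0) + C (f 1) * X : k[X]) ≠ 0 := by
      intro h
      apply hf
      have e0 := congrArg (fun p => coeff p 0) h
      have e1 := congrArg (fun p => coeff p 1) h
      simp only [coeff_add, coeff_C_zero, coeff_C_mul, coeff_X_zero, mul_zero, add_zero, coeff_zero] at e0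
      simp only [coeff_add, coeff_C_mul, coeff_X_one, mul_one, coeff_zero] at e1
      rw [coeff_C, if_neg one_ne_zero, zero_add] at e1
      funext i
      fin_cases i
      · exact e0
      · exact e1
      · exact h2
    have h3 := aeval_ne (ind_fst huv) h1
    simpa using h3
  · intro h
    apply sub_pol_ne huv (-(C (f 2)⁻¹ * (C (f 0) + C (f 1) * X)))
    have h3 : algebraMap k F (f 2)⁻¹ * algebraMap k F (f 2) = 1 := by
      rw [← map_mul, inv_mul_cancel₀ h2, map_one]
    simp only [map_neg, map_mul, map_add, aeval_C, aeval_X]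
    linear_combination algebraMap k F (f 2)⁻¹ * h - v * h3

/-- Six lines, two of which are `u = 0` and the line at infinity. -/
theorem vpj_six0 (f : Fin 6 → Fin 3 → k) (hf : ∀ i, f i ≠ 0) {i₀ j₀ : Fin 6} (hij : i₀ ≠ j₀)
    (hi : f i₀ 2 = 0) (hj1 : f j₀ 1 = 0) (hj : f j₀ 2 = 0) {F : Type u} [Field F] [Algebra k F] {u v w : F}
    (huv : AlgebraicIndependent k ![u, v])
    (hw : w ^ 2 = ∏ i, (algebraMap k F (f i 0) + algebraMap k F (f i 1) * u + algebraMap k F (f i 2) * v))
    (hgen : IntermediateField.adjoin k {u, v, w} = ⊤) : VPJ k F 1 := by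
  classical
  obtain ⟨S, hS⟩ : ∃ S : Finset (Fin 6), S = Finset.univ.filter fun i => f i 2 ≠ 0 := ⟨_, rfl⟩
  obtain ⟨d, hd⟩ : ∃ d : Fin 6 → k[X], d = fun i => if f i 2 ≠ 0 then C (f i 2) else C (f i 0) + C (f i 1) * X :=
    ⟨_, rfl⟩
  obtain ⟨e, he⟩ : ∃ e : Fin 6 → k[X], e = fun i => -(C (f i 2)⁻¹ * (C (f i 0) + C (f i 1) * X)) := ⟨_, rfl⟩
  have hlin : ∀ a b : k, (C a + C b * X : k[X]).natDegree ≤ 1 := fun a b => by compute_degree
  have hcard : S.card ≤ 4 := by
    have h1 : S ⊆ (Finset.univ.erase i₀).erase j₀ := by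
      intro i h
      rw [hS, Finset.mem_filter] at h
      rw [Finset.mem_erase, Finset.mem_erase]
      refine ⟨?_, ?_, Finset.mem_univ _⟩
      · rintro rfl
        exact h.2 hj
      · rintro rfl
        exact h.2 hi
    refine (Finset.card_le_card h1).trans ?_
    rw [Finset.card_erase_of_mem (Finset.mem_erase.mpr ⟨hij.symm, Finset.mem_univ _⟩),
      Finset.card_erase_of_mem (Finset.mem_univ _), Finset.card_univ, Fintype.card_fin]
  have hd0 : ∀ i, d i ≠ 0 := by
    intro i h
    rw [hd] at h
    simp only at h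
    by_cases h2 : f i 2 = 0
    · rw [if_neg (not_not.mpr h2)] at h
      apply hf i
      have e0 := congrArg (fun p => coeff p 0) h
      have e1 := congrArg (fun p => coeff p 1) h
      simp only [coeff_add, coeff_C_zero, coeff_C_mul, coeff_X_zero, mul_zero, add_zero, coeff_zero] at e0
      simp only [coeff_add, coeff_C_mul, coeff_X_one, mul_one, coeff_zero] at e1
      rw [coeff_C, if_neg one_ne_zero, zero_add] at e1
      funext i
      fin_cases i
      · exact e0
      · exact e1
      · exact h2
    · rw [if_pos h2, C_eq_zero] at h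
      exact h2 h
  have hdeg : (∏ i, d i).natDegree + S.card ≤ 5 := by
    have h1 : (∏ i, d i).natDegree ≤ ∑ i, (d i).natDegree := natDegree_prod_le _ _
    have h2 : S.card = ∑ i, if f i 2 ≠ 0 then 1 else 0 := by
      rw [hS, Finset.card_filter]
    have h3 : ∀ i, (d i).natDegree + (if f i 2 ≠ 0 then 1 else 0) ≤ if i = j₀ then 0 else 1 := by
      intro i
      rw [hd]
      simp only
      by_cases h : i = j₀
      · rw [if_pos h, h, if_neg (not_not.mpr hj), if_neg (not_not.mpr hj), hj1, C_0, zero_mul, add_zero,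
          add_zero, natDegree_C]
      · rw [if_neg h]
        by_cases h2 : f i 2 = 0
        · rw [if_neg (not_not.mpr h2), if_neg (not_not.mpr h2)]
          exact hlin _ _
        · rw [if_pos h2, if_pos h2, natDegree_C]
    have h4 := Finset.sum_le_sum fun i (_ : i ∈ Finset.univ) => h3 i
    rw [Finset.sum_add_distrib, ← h2] at h4
    have h5 : (∑ i : Fin 6, if i = j₀ then 0 else 1) = 5 := by
      revert j₀
      intro j₀ _ _ _ _ _
      fin_cases j₀ <;> rfl
    omega
  refine vpj_q S.card (S.val.map e) (Multiset.card_map _ _) hcard ?_ (∏ i, d i)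
    (Finset.prod_ne_zero_iff.mpr fun i _ => hd0 i) hdeg u v w huv ?_ hgen
  · intro p hp
    obtain ⟨i, -, rfl⟩ := Multiset.mem_map.mp hp
    rw [he]
    simp only
    rw [natDegree_neg]
    exact (natDegree_C_mul_le _ _).trans (hlin _ _)
  · rw [hw, Multiset.map_map]
    change _ = _ * ∏ i ∈ S, (v - aeval u (e i))
    rw [hS, Finset.prod_filter, map_prod, ← Finset.prod_mul_distrib]
    refine Finset.prod_congr rfl fun i _ => ?_
    rw [hd, he]
    simp only
    by_cases h2 : f i 2 = 0
    · rw [if_neg (not_not.mpr h2), if_neg (not_not.mpr h2), h2, map_zero, zero_mul, add_zero, mul_one]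
      simp only [map_mul, map_add, aeval_C, aeval_X]
    · rw [if_pos h2, if_pos h2]
      have h3 : algebraMap k F (f i 2) * algebraMap k F (f i 2)⁻¹ = 1 := by
        rw [← map_mul, mul_inv_cancel₀ h2, map_one]
      simp only [map_neg, map_mul, map_add, aeval_C, aeval_X]
      linear_combination (-(algebraMap k F (f i 0) + algebraMap k F (f i 1) * u)) * h3

/-- The double plane branched along six lines, which may coincide. -/
theorem vpj_six (f : Fin 6 → Fin 3 → k) (hf : ∀ i, f i ≠ 0) {F : Type u} [Field F] [Algebra k F] {u v w : F}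
    (huv : AlgebraicIndependent k ![u, v])
    (hw : w ^ 2 = ∏ i, (algebraMap k F (f i 0) + algebraMap k F (f i 1) * u + algebraMap k F (f i 2) * v))
    (hgen : IntermediateField.adjoin k {u, v, w} = ⊤) : VPJ k F 1 := by
  classical
  by_cases hpr : ∀ j, ∃ c : k, f j = c • f 0
  · -- all lines coincide
    choose c hc using hpr
    have hL := form_ne huv (hf 0)
    obtain ⟨L, hL'⟩ : ∃ L, L = algebraMap k F (f 0 0) + algebraMap k F (f 0 1) * u + algebraMap k F (f 0 2) * v :=
      ⟨_, rfl⟩
    rw [← hL'] at hL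
    have hw2 : w ^ 2 = algebraMap k F (∏ j, c j) * (L ^ 3) ^ 2 := by
      rw [hw, map_prod, ← pow_mul, show (L ^ (3 * 2)) = ∏ _j : Fin 6, L by
        rw [Finset.prod_const, Finset.card_univ, Fintype.card_fin], ← Finset.prod_mul_distrib]
      refine Finset.prod_congr rfl fun j _ => ?_
      rw [hL', hc j]
      simp only [Pi.smul_apply, smul_eq_mul, map_mul]
      ring
    refine q0 (D := C (∏ j, c j)) (w := w / L ^ 3) huv ?_ ?_
    · rw [div_pow, hw2, aeval_C]
      field_simp
    · have hLm : L ∈ IntermediateField.adjoin k {u, v, w / L ^ 3} := by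
        rw [hL']
        exact add_mem (add_mem (IntermediateField.algebraMap_mem _ _)
          (mul_mem (IntermediateField.algebraMap_mem _ _) (mem1 _ _ _)))
          (mul_mem (IntermediateField.algebraMap_mem _ _) (mem2 _ _ _))
      refine gen_change hgen (mem1 _ _ _) (mem2 _ _ _) ?_
      have h1 := mul_mem (mem3 u v (w / L ^ 3)) (pow_mem hLm 3)
      rwa [div_mul_cancel₀ _ (pow_ne_zero 3 hL)] at h1
  · push Not at hpr
    obtain ⟨j, hj⟩ := hpr
    -- a third form
    obtain ⟨M, hM, hM0, hM1⟩ : ∃ M : Matrix (Fin 3) (Fin 3) k, M.det ≠ 0 ∧ M 0 = f j ∧ M 1 = f 0 := by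
      by_contra hcon
      push Not at hcon
      have h1 : ∀ g : Fin 3 → k, (Matrix.of ![f j, f 0, g]).det = 0 := by
        intro g
        by_contra h
        exact hcon _ h rfl rfl
      have h2 := h1 ![1, 0, 0]
      have h3 := h1 ![0, 1, 0]
      have h4 := h1 ![0, 0, 1]
      rw [Matrix.det_fin_three] at h2 h3 h4
      simp at h2 h3 h4
      obtain ⟨i, hi⟩ : ∃ i, f 0 i ≠ 0 := by
        by_contra h
        push Not at h
        exact hf 0 (funext h)
      apply hj (f j i / f 0 i)
      funext l
      rw [Pi.smul_apply, smul_eq_mul, div_mul_eq_mul_div, eq_div_iff hi]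
      fin_cases i <;> fin_cases l <;> simp only [Fin.reduceFinMk, Fin.zero_eta, Fin.mk_one] <;>
        first
          | ring1
          | linear_combination h2
          | linear_combination -h2
          | linear_combination h3
          | linear_combination -h3
          | linear_combination h4
          | linear_combination -h4
    have hu : IsUnit M.det := isUnit_iff_ne_zero.mpr hM
    obtain ⟨N, hN⟩ : ∃ N, N = M⁻¹ := ⟨_, rfl⟩
    have hMN : M * N = 1 := by rw [hN, Matrix.mul_nonsing_inv M hu]
    have hNM : N * M = 1 := by rw [hN, Matrix.nonsing_inv_mul M hu]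
    obtain ⟨X, hX⟩ : ∃ X : Fin 3 → F, X = ![1, u, v] := ⟨_, rfl⟩
    have hX0 : X 0 = 1 := by rw [hX]; rfl
    have hX1 : X 1 = u := by rw [hX]; rfl
    have hX2 : X 2 = v := by rw [hX]; rfl
    obtain ⟨Y, hY⟩ : ∃ Y : Fin 3 → F, Y = fun r => ∑ s, algebraMap k F (M r s) * X s := ⟨_, rfl⟩
    have hXY : ∀ r, X r = ∑ s, algebraMap k F (N r s) * Y s := by
      intro r
      rw [hY]
      simp only [Finset.mul_sum]
      rw [Finset.sum_comm]
      have h1 : ∀ t, ∑ s, algebraMap k F (N r s) * (algebraMap k F (M s t) * X t) =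
          algebraMap k F ((N * M) r t) * X t := by
        intro t
        rw [Matrix.mul_apply, map_sum, Finset.sum_mul]
        refine Finset.sum_congr rfl fun s _ => ?_
        rw [map_mul]
        ring
      rw [Finset.sum_congr rfl fun t _ => h1 t, hNM, Finset.sum_eq_single r]
      · rw [Matrix.one_apply_eq, map_one, one_mul]
      · intro t _ ht
        rw [Matrix.one_apply_ne (Ne.symm ht), map_zero, zero_mul]
      · intro h
        exact absurd (Finset.mem_univ r) h
    have hY0 : Y 0 ≠ 0 := by
      have h1 := form_ne huv (hf j)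
      rw [hY]
      simp only [hM0]
      rw [Fin.sum_univ_three, hX0, hX1, hX2, mul_one]
      exact h1
    obtain ⟨f', hf'⟩ : ∃ f' : Fin 6 → Fin 3 → k, f' = fun m s => ∑ t, f m t * N t s := ⟨_, rfl⟩
    -- the forms in the new coordinates
    have hform : ∀ m, algebraMap k F (f m 0) + algebraMap k F (f m 1) * u + algebraMap k F (f m 2) * v =
        Y 0 * (algebraMap k F (f' m 0) + algebraMap k F (f' m 1) * (Y 1 / Y 0) +
          algebraMap k F (f' m 2) * (Y 2 / Y 0)) := by
      intro m
      have h1 : algebraMap k F (f m 0) + algebraMap k F (f m 1) * u + algebraMap k F (f m 2) * v =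
          ∑ t, algebraMap k F (f m t) * X t := by
        rw [Fin.sum_univ_three, hX0, hX1, hX2, mul_one]
      have h2 : ∑ t, algebraMap k F (f m t) * X t = ∑ s, algebraMap k F (f' m s) * Y s := by
        simp only [hXY, Finset.mul_sum]
        rw [Finset.sum_comm]
        refine Finset.sum_congr rfl fun s _ => ?_
        rw [hf']
        simp only
        rw [map_sum, Finset.sum_mul]
        refine Finset.sum_congr rfl fun t _ => ?_
        rw [map_mul]
        ring
      rw [h1, h2, Fin.sum_univ_three]
      field_simp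
    have hrow : ∀ m r, f m = M r → f' m = fun s => (1 : Matrix (Fin 3) (Fin 3) k) r s := by
      intro m r h
      funext s
      rw [hf', ← hMN, Matrix.mul_apply]
      simp only [h]
    have hj0 : j ≠ 0 := by
      rintro rfl
      exact hj 1 (one_smul k _).symm
    have hinj : ∀ m, f' m ≠ 0 := by
      intro m h
      apply hf m
      funext t
      have h1 : f m t = ∑ s, f' m s * M s t := by
        rw [hf']
        simp only [Finset.sum_mul]
        rw [Finset.sum_comm]
        have h2 : ∀ r, ∑ s, f m r * N r s * M s t = f m r * (N * M) r t := by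
          intro r
          rw [Matrix.mul_apply, Finset.mul_sum]
          refine Finset.sum_congr rfl fun s _ => ?_
          ring
        rw [Finset.sum_congr rfl fun r _ => h2 r, hNM, Finset.sum_eq_single t]
        · rw [Matrix.one_apply_eq, mul_one]
        · intro r _ hr
          rw [Matrix.one_apply_ne hr, mul_zero]
        · intro h
          exact absurd (Finset.mem_univ t) h
      rw [h1, h]
      simp
    have hw' : (w / Y 0 ^ 3) ^ 2 = ∏ m, (algebraMap k F (f' m 0) + algebraMap k F (f' m 1) * (Y 1 / Y 0) +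
        algebraMap k F (f' m 2) * (Y 2 / Y 0)) := by
      rw [div_pow, hw, div_eq_iff (pow_ne_zero _ (pow_ne_zero _ hY0))]
      rw [Finset.prod_congr rfl fun m _ => hform m, Finset.prod_mul_distrib, Finset.prod_const,
        Finset.card_univ, Fintype.card_fin]
      ring
    have hXm : ∀ r, X r / Y 0 ∈ IntermediateField.adjoin k {Y 1 / Y 0, Y 2 / Y 0, w / Y 0 ^ 3} := by
      intro r
      have h1 : X r / Y 0 = algebraMap k F (N r 0) + algebraMap k F (N r 1) * (Y 1 / Y 0) +
          algebraMap k F (N r 2) * (Y 2 / Y 0) := by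
        rw [hXY r, Fin.sum_univ_three]
        field_simp
      rw [h1]
      exact add_mem (add_mem (IntermediateField.algebraMap_mem _ _)
        (mul_mem (IntermediateField.algebraMap_mem _ _) (mem1 _ _ _)))
        (mul_mem (IntermediateField.algebraMap_mem _ _) (mem2 _ _ _))
    have hYm : Y 0 ∈ IntermediateField.adjoin k {Y 1 / Y 0, Y 2 / Y 0, w / Y 0 ^ 3} := by
      have h1 := inv_mem (hXm 0)
      rwa [hX0, one_div, inv_inv] at h1
    have hgen' : IntermediateField.adjoin k {Y 1 / Y 0, Y 2 / Y 0, w / Y 0 ^ 3} = ⊤ := by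
      refine gen_change hgen ?_ ?_ ?_
      · have h1 := mul_mem (hXm 1) hYm
        rwa [hX1, div_mul_cancel₀ _ hY0] at h1
      · have h1 := mul_mem (hXm 2) hYm
        rwa [hX2, div_mul_cancel₀ _ hY0] at h1
      · have h1 := mul_mem (mem3 (Y 1 / Y 0) (Y 2 / Y 0) (w / Y 0 ^ 3)) (pow_mem hYm 3)
        rwa [div_mul_cancel₀ _ (pow_ne_zero 3 hY0)] at h1
    have huv' : AlgebraicIndependent k ![Y 1 / Y 0, Y 2 / Y 0] := by
      refine ind_gen' huv hgen' ?_ hw'
      have ha : Y 1 / Y 0 ∈ IntermediateField.adjoin k {Y 1 / Y 0, Y 2 / Y 0} :=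
        IntermediateField.subset_adjoin k _ (Or.inl rfl)
      have hb : Y 2 / Y 0 ∈ IntermediateField.adjoin k {Y 1 / Y 0, Y 2 / Y 0} :=
        IntermediateField.subset_adjoin k _ (Or.inr rfl)
      exact prod_mem fun m _ => add_mem (add_mem (IntermediateField.algebraMap_mem _ _)
        (mul_mem (IntermediateField.algebraMap_mem _ _) ha)) (mul_mem (IntermediateField.algebraMap_mem _ _) hb)
    refine vpj_six0 f' hinj (i₀ := 0) (j₀ := j) (Ne.symm hj0) ?_ ?_ ?_ huv' hw' hgen'
    · rw [hrow 0 1 hM1.symm]
      rfl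
    · rw [hrow j 0 hM0.symm]
      rfl
    · rw [hrow j 0 hM0.symm]
      rfl

end Pool.Agent.Helper70.B4
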