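import Mathlib
import Pool.Agent.Helper9.NS
import Pool.Agent.Helper70.B4.Sext

/-!
# B4: ruled fields
-/

set_option linter.unusedSectionVars false

namespace Pool.Agent.Helper70.B4

open VC _root_.VF Function Polynomial
open Pool.Agent.Helper21.TO Pool.Agent.Helper21.TB Pool.Agent.Helper15.GT Pool.Agent.Helper70.KX

universe u

variable {k : Type u} [Field k] [IsAlgClosed k] [CharZero k]

/-- The ruled case: the field is generated by `u`, by two elements algebraic over `k (u)` and by `x`. -/
theorem vpj_rul3 {F : Type u} [Field F] [Algebra k F] (u w₁ w₂ x : F) (hu : Transcendental k u)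
    (hw₁ : IsAlgebraic (IntermediateField.adjoin k {u}) w₁) (hw₂ : IsAlgebraic (IntermediateField.adjoin k {u}) w₂)
    (hgen : IntermediateField.adjoin k {u, w₁, w₂, x} = ⊤) : VPJ k F 0 := by
  let K := IntermediateField.adjoin k {u}
  let u' : K := ⟨u, IntermediateField.mem_adjoin_simple_self k u⟩
  have hK : IsFunctionField k K := line_ff (trans_gen hu) (adjoin_gen_top u)
  let L := IntermediateField.adjoin K {w₁, w₂}
  have : FiniteDimensional K L := by
    refine IntermediateField.finiteDimensional_adjoin ?_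
    rintro z (hz | hz)
    · rw [hz]
      exact hw₁.isIntegral
    · rw [Set.mem_singleton_iff.mp hz]
      exact hw₂.isIntegral
  have hL : IsFunctionField k L := _root_.VF.ff_ext hK
  have : IsScalarTower k L F := IsScalarTower.of_algebraMap_eq fun _ => rfl
  refine vpj_ruled hL (IsScalarTower.toAlgHom k L F) x ?_
  rw [eq_top_iff, ← hgen, IntermediateField.adjoin_le_iff]
  have hr : ∀ z : F, z ∈ IntermediateField.adjoin K {w₁, w₂} →
      z ∈ IntermediateField.adjoin k (Set.range (IsScalarTower.toAlgHom k L F) ∪ {x}) := fun z hz =>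
    IntermediateField.subset_adjoin k _ (Or.inl ⟨⟨z, hz⟩, rfl⟩)
  rintro z (hz | hz | hz | hz)
  · rw [hz]
    exact hr u ((IntermediateField.adjoin K {w₁, w₂}).algebraMap_mem u')
  · rw [hz]
    exact hr _ (IntermediateField.subset_adjoin K _ (Or.inl rfl))
  · rw [hz]
    exact hr _ (IntermediateField.subset_adjoin K _ (Or.inr rfl))
  · rw [Set.mem_singleton_iff.mp hz]
    exact IntermediateField.subset_adjoin k _ (Or.inr rfl)

lemma alg_sqrt {F : Type u} [Field F] [Algebra k F] {u y : F} {f : k[X]} (hy : y ^ 2 = aeval u f) :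
    IsAlgebraic (IntermediateField.adjoin k {u}) y := by
  refine IsAlgebraic.of_pow two_pos ?_
  rw [hy]
  exact isAlgebraic_algebraMap (⟨aeval u f, pol_mem u (IntermediateField.mem_adjoin_simple_self k u) f⟩ :
    IntermediateField.adjoin k {u})

/-- the field generated by `u`, `y`, `w`, `v` with `y ^ 2 = f (u)` and `w ^ 2 = A (u) + B (u) v`. -/
theorem vpj_g1 {F : Type u} [Field F] [Algebra k F] {u v y w : F} (hu : Transcendental k u) {f A B : k[X]}
    (hy : y ^ 2 = aeval u f) (hw : w ^ 2 = aeval u A + aeval u B * v)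
    (hgen : IntermediateField.adjoin k {u, v, y, w} = ⊤) : VPJ k F 0 := by
  by_cases hB : B = 0
  · rw [hB, map_zero, zero_mul, add_zero] at hw
    refine vpj_rul3 u y w v hu (alg_sqrt hy) (alg_sqrt hw) ?_
    rw [← hgen]
    congr 1
    ext z
    simp only [Set.mem_insert_iff, Set.mem_singleton_iff]
    tauto
  · have hB' : aeval u B ≠ 0 := aeval_ne hu hB
    refine vpj_rul2 u y w hu (alg_sqrt hy) ?_
    have hv : v = (w ^ 2 - aeval u A) / aeval u B := by
      rw [hw, add_sub_cancel_left, mul_div_cancel_left₀ _ hB']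
    have hvm : v ∈ IntermediateField.adjoin k {u, y, w} := by
      have h := div_mem (sub_mem (pow_mem (mem3 u y w) 2) (pol_mem u (mem1 u y w) A)) (pol_mem u (mem1 u y w) B)
      rwa [← hv] at h
    rw [eq_top_iff, ← hgen, IntermediateField.adjoin_le_iff]
    rintro z (hz | hz | hz | hz)
    · rw [hz]
      exact mem1 _ _ _
    · rw [hz]
      exact hvm
    · rw [hz]
      exact mem2 _ _ _
    · rw [Set.mem_singleton_iff.mp hz]
      exact mem3 _ _ _

/-- the same inside a larger field -/
theorem vpj_g1_in {N : Type u} [Field N] [Algebra k N] {u v y w : N} (hu : Transcendental k u) {f A B : k[X]}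
    (hy : y ^ 2 = aeval u f) (hw : w ^ 2 = aeval u A + aeval u B * v) :
    VPJ k (IntermediateField.adjoin k {u, v, y, w}) 0 := by
  obtain ⟨K, hK⟩ : ∃ K, K = IntermediateField.adjoin k {u, v, y, w} := ⟨_, rfl⟩
  have m1 : u ∈ K := by rw [hK]; exact IntermediateField.subset_adjoin k _ (Or.inl rfl)
  have m2 : v ∈ K := by rw [hK]; exact IntermediateField.subset_adjoin k _ (Or.inr (Or.inl rfl))
  have m3 : y ∈ K := by rw [hK]; exact IntermediateField.subset_adjoin k _ (Or.inr (Or.inr (Or.inl rfl)))
  have m4 : w ∈ K := by rw [hK]; exact IntermediateField.subset_adjoin k _ (Or.inr (Or.inr (Or.inr rfl)))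
  have hc : ∀ p : k[X], ((aeval (⟨u, m1⟩ : K) p : K) : N) = aeval u p := fun p =>
    (aeval_algebraMap_apply N (⟨u, m1⟩ : K) p).symm
  rw [← hK]
  refine vpj_g1 (u := (⟨u, m1⟩ : K)) (v := ⟨v, m2⟩) (y := ⟨y, m3⟩) (w := ⟨w, m4⟩) (f := f) (A := A) (B := B)
    ?_ ?_ ?_ ?_
  · intro h
    exact hu (h.algebraMap (A := N))
  · apply Subtype.ext
    rw [hc]
    exact hy
  · apply Subtype.ext
    change w ^ 2 = ((aeval (⟨u, m1⟩ : K) A : K) : N) + ((aeval (⟨u, m1⟩ : K) B : K) : N) * v
    rw [hc, hc]
    exact hw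
  · apply IntermediateField.lift_injective
    rw [IntermediateField.lift_adjoin, IntermediateField.lift_top]
    refine Eq.trans ?_ hK.symm
    congr 1
    ext z
    simp only [Set.mem_image, Set.mem_insert_iff, Set.mem_singleton_iff]
    constructor
    · rintro ⟨t, (rfl | rfl | rfl | rfl), rfl⟩
      · exact Or.inl rfl
      · exact Or.inr (Or.inl rfl)
      · exact Or.inr (Or.inr (Or.inl rfl))
      · exact Or.inr (Or.inr (Or.inr rfl))
    · rintro (h | h | h | h)
      · exact ⟨_, Or.inl rfl, h.symm⟩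
      · exact ⟨_, Or.inr (Or.inl rfl), h.symm⟩
      · exact ⟨_, Or.inr (Or.inr (Or.inl rfl)), h.symm⟩
      · exact ⟨_, Or.inr (Or.inr (Or.inr rfl)), h.symm⟩

end Pool.Agent.Helper70.B4
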