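import Mathlib
import Pool.Agent.Helper9.NS
import Pool.Agent.Helper70.B4.Rul
import Pool.Agent.Helper79.B4.Defs
import Pool.Agent.Helper67.IR.FixG
import Pool.Agent.Helper67.IR.Six

/-!
# B4: the fixed fields of the second type
-/

set_option linter.unusedSectionVars false

namespace Pool.Agent.Helper70.B4

open VC _root_.VF Function Polynomial
open Pool.Agent.Helper21.TO Pool.Agent.Helper21.TB Pool.Agent.Helper15.GT Pool.Agent.Helper70.KX
open Pool.Agent.Helper79.B4 Pool.Agent.Helper67.IR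

universe u

variable {k : Type u} [Field k]

lemma ind_down {N : Type u} [Field N] [Algebra k N] {K : IntermediateField k N} {u v : K}
    (h : AlgebraicIndependent k ![(u : N), (v : N)]) : AlgebraicIndependent k ![u, v] := by
  have e : (K.val : K → N) ∘ ![u, v] = ![(u : N), (v : N)] := by
    funext i
    fin_cases i <;> rfl
  rw [← e] at h
  exact h.of_comp K.val

/-- three generators of an adjoined field -/
lemma top_three {N : Type u} [Field N] [Algebra k N] (a b c : N) :
    IntermediateField.adjoin k {(⟨a, mem1 a b c⟩ : IntermediateField.adjoin k {a, b, c}), ⟨b, mem2 a b c⟩,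
      ⟨c, mem3 a b c⟩} = ⊤ := by
  apply IntermediateField.lift_injective
  rw [IntermediateField.lift_adjoin, IntermediateField.lift_top]
  congr 1
  ext z
  simp only [Set.mem_image, Set.mem_insert_iff, Set.mem_singleton_iff]
  constructor
  · rintro ⟨t, (rfl | rfl | rfl), rfl⟩
    · exact Or.inl rfl
    · exact Or.inr (Or.inl rfl)
    · exact Or.inr (Or.inr rfl)
  · rintro (h | h | h)
    · exact ⟨_, Or.inl rfl, h.symm⟩
    · exact ⟨_, Or.inr (Or.inl rfl), h.symm⟩
    · exact ⟨_, Or.inr (Or.inr rfl), h.symm⟩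

variable [IsAlgClosed k] [CharZero k]

theorem vpj_six_in {N : Type u} [Field N] [Algebra k N] {u v w : N} (huv : AlgebraicIndependent k ![u, v])
    {a b c : Fin 6 → k} (h : ∀ j, a j ≠ 0 ∨ b j ≠ 0 ∨ c j ≠ 0)
    (hw : w ^ 2 = ∏ j, (algebraMap k N (a j) + algebraMap k N (b j) * u + algebraMap k N (c j) * v)) :
    VPJ k (IntermediateField.adjoin k {u, v, w}) 1 := by
  refine vpj_six (fun j => ![a j, b j, c j]) ?_ (u := ⟨u, mem1 u v w⟩) (v := ⟨v, mem2 u v w⟩)
    (w := ⟨w, mem3 u v w⟩) (ind_down huv) ?_ (top_three u v w)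
  · intro j h0
    rcases h j with h1 | h1 | h1
    · exact h1 (congrFun h0 0)
    · exact h1 (congrFun h0 1)
    · exact h1 (congrFun h0 2)
  · apply Subtype.ext
    have e : ∀ z : Fin 6 → IntermediateField.adjoin k {u, v, w}, ((∏ j, z j : IntermediateField.adjoin k {u, v, w}) : N) =
        ∏ j, (z j : N) := fun z => map_prod (IntermediateField.adjoin k {u, v, w}).val z Finset.univ
    rw [e]
    exact hw

/-- [I2] -/
theorem i2 : StmtI2.{u} := by
  intro k N _ _ _ _ _ D hA
  classical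
  have hN : CharZero N := charZero_of_injective_algebraMap (algebraMap k N).injective
  choose T hT using hA
  obtain ⟨f, hfd⟩ : ∃ f : k[X], f = ∏ j, (X - C (D.a j)) := ⟨_, rfl⟩
  have hf : ∀ i, D.y i ^ 2 = aeval (D.x i) f := by
    intro i
    rw [D.hy i, hfd, map_prod]
    refine Finset.prod_congr rfl fun j _ => ?_
    rw [map_sub, aeval_X, aeval_C]
  have hf0 : f ≠ 0 := by
    rw [hfd]
    exact Finset.prod_ne_zero_iff.mpr fun j _ => X_sub_C_ne_zero _
  have hf5 : f.natDegree ≤ 5 := by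
    rw [hfd, natDegree_prod_of_monic _ _ fun j _ => monic_X_sub_C _]
    simp
  have htr : ∀ i, Transcendental k (D.x i) := by
    intro i
    fin_cases i
    · exact D.hx.transcendental 0
    · exact D.hx.transcendental 1
  have hxi : Injective D.x := by
    have h := D.hx.injective
    intro i j hij
    apply h
    fin_cases i <;> fin_cases j <;> first | rfl | exact hij
  have hy0 : ∀ i, D.y i ≠ 0 := by
    intro i h
    have h1 := hf i
    rw [h, zero_pow two_ne_zero] at h1
    exact aeval_ne (htr i) hf0 h1.symm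
  have m0 : D.x 0 ∈ IntermediateField.adjoin k ({D.x 0, D.x 1} : Set N) :=
    IntermediateField.subset_adjoin k _ (Or.inl rfl)
  have m1 : D.x 1 ∈ IntermediateField.adjoin k ({D.x 0, D.x 1} : Set N) :=
    IntermediateField.subset_adjoin k _ (Or.inr rfl)
  have hz2 : D.w ^ 2 ∈ IntermediateField.adjoin k ({D.x 0, D.x 1} : Set N) := by
    rw [D.hw]
    exact mem_lin (add_mem m0 m1) (mul_mem m0 m1)
  have hgen5 : IntermediateField.adjoin k ({D.x 0, D.x 1, D.y 0, D.y 1, D.w} : Set N) = ⊤ := by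
    refine eq_top_of D.hgen ?_
    rintro s ((⟨i, rfl⟩ | ⟨i, rfl⟩) | rfl)
    · refine IntermediateField.subset_adjoin k _ ?_
      fin_cases i <;> simp
    · refine IntermediateField.subset_adjoin k _ ?_
      fin_cases i <;> simp
    · exact IntermediateField.subset_adjoin k _ (by simp)
  have hz0 : D.w ≠ 0 := by
    intro h
    have hb : Bd (IntermediateField.adjoin k ({D.x 0, D.x 1} : Set N)) 4 := by
      refine bd_sqrt (m := 2) (D.y 0) (by rw [hf]; exact aeval_mem' m0 f) ?_
      refine bd_sqrt (m := 1) (D.y 1) (by rw [hf]; exact aeval_mem' (mem_sup_left' m1) f) ?_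
      have hT : IntermediateField.adjoin k ({D.x 0, D.x 1} : Set N) ⊔ IntermediateField.adjoin k {D.y 0} ⊔
          IntermediateField.adjoin k {D.y 1} = ⊤ := by
        refine eq_top_of hgen5 ?_
        rintro s (rfl | rfl | rfl | rfl | rfl)
        · exact mem_sup_left' (mem_sup_left' m0)
        · exact mem_sup_left' (mem_sup_left' m1)
        · exact mem_sup_left' (mem_sup_self _ _)
        · exact mem_sup_self _ _
        · rw [h]
          exact zero_mem _
      rw [hT]
      exact bd_top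
    have h1 := hb.2
    rw [D.hdeg] at h1
    omega
  have hΓ : ∀ i g, g ∈ (![D.G1, D.G2, D.G3] : Fin 3 → Subgroup (N ≃ₐ[k] N)) i ↔
      ∃ p ∈ grpPsi i, T p.1 p.2.1 p.2.2 = g := by
    have huniq : ∀ {π ε δ} {g : N ≃ₐ[k] N}, D.Acts π ε δ g → T π ε δ = g := by
      intro π ε δ g hg
      refine ext_of_gen D.hgen ?_
      rintro s ((⟨i, rfl⟩ | ⟨i, rfl⟩) | rfl)
      · rw [((hT π ε δ).1 i).1, (hg.1 i).1]
      · rw [((hT π ε δ).1 i).2, (hg.1 i).2]
      · rw [(hT π ε δ).2, hg.2]
    intro i g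
    fin_cases i
    · constructor
      · rintro ⟨ε, h, h1⟩
        exact ⟨(1, ε, 1), by simp [grpPsi, h1], huniq h⟩
      · rintro ⟨⟨π, ε, δ⟩, hp, rfl⟩
        have hp' : π = 1 ∧ ε 0 = 1 ∧ δ = 1 := by simpa [grpPsi] using hp
        obtain ⟨rfl, hε, rfl⟩ := hp'
        exact ⟨ε, hT _ _ _, hε⟩
    · constructor
      · rintro ⟨π, ε, δ, h, h1⟩
        rw [Fin.prod_univ_two] at h1
        exact ⟨(π, ε, δ), by simp [grpPsi, h1], huniq h⟩
      · rintro ⟨⟨π, ε, δ⟩, hp, rfl⟩
        have hε : ε 0 * ε 1 = 1 := by simpa [grpPsi] using hp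
        exact ⟨π, ε, δ, hT _ _ _, by rw [Fin.prod_univ_two]; exact hε⟩
    · constructor
      · rintro ⟨π, ε, δ, h, h1⟩
        rw [Fin.prod_univ_two] at h1
        exact ⟨(π, ε, δ), by simp [grpPsi, h1], huniq h⟩
      · rintro ⟨⟨π, ε, δ⟩, hp, rfl⟩
        have hε : ε 0 * ε 1 * δ = 1 := by simpa [grpPsi] using hp
        exact ⟨π, ε, δ, hT _ _ _, by rw [Fin.prod_univ_two]; exact hε⟩
  obtain ⟨e1, e2, e3⟩ := fixed_psi hf D.hgen hxi hy0 hz0 hz2 (fun π ε δ i => ((hT π ε δ).1 i).1)
    (fun π ε δ i => ((hT π ε δ).1 i).2) (fun π ε δ => (hT π ε δ).2) ![D.G1, D.G2, D.G3] hΓ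
  -- the symmetric functions are independent
  have hind : AlgebraicIndependent k ![D.x 0 + D.x 1, D.x 0 * D.x 1] := by
    refine ind_of_gen D.hx ?_
    obtain ⟨K, hK⟩ : ∃ K, K = IntermediateField.adjoin k ({D.x 0 + D.x 1, D.x 0 * D.x 1} : Set N) := ⟨_, rfl⟩
    have s1 : D.x 0 + D.x 1 ∈ K := by
      rw [hK]
      exact IntermediateField.subset_adjoin k _ (Or.inl rfl)
    have s2 : D.x 0 * D.x 1 ∈ K := by
      rw [hK]
      exact IntermediateField.subset_adjoin k _ (Or.inr rfl)
    have hb : Bd K 16 := by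
      refine bd_quad (m := 8) (D.x 0) (b := -(D.x 0 + D.x 1)) (c := D.x 0 * D.x 1) (K.neg_mem s1) s2 (by ring) ?_
      have n0 : D.x 0 ∈ K ⊔ IntermediateField.adjoin k {D.x 0} := mem_sup_self _ _
      have n1 : D.x 1 ∈ K ⊔ IntermediateField.adjoin k {D.x 0} := by
        have h := sub_mem (mem_sup_left' (L := IntermediateField.adjoin k {D.x 0}) s1) n0
        rwa [add_sub_cancel_left] at h
      refine bd_sqrt (m := 4) (D.y 0) (by rw [hf]; exact aeval_mem' n0 f) ?_
      refine bd_sqrt (m := 2) (D.y 1) (by rw [hf]; exact aeval_mem' (mem_sup_left' n1) f) ?_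
      refine bd_sqrt (m := 1) D.w (by
        rw [D.hw]
        exact mem_lin (mem_sup_left' (mem_sup_left' (add_mem n0 n1))) (mem_sup_left' (mem_sup_left' (mul_mem n0 n1)))) ?_
      have hT : K ⊔ IntermediateField.adjoin k {D.x 0} ⊔ IntermediateField.adjoin k {D.y 0} ⊔
          IntermediateField.adjoin k {D.y 1} ⊔ IntermediateField.adjoin k {D.w} = ⊤ := by
        refine eq_top_of hgen5 ?_
        rintro s (rfl | rfl | rfl | rfl | rfl)
        · exact mem_sup_left' (mem_sup_left' (mem_sup_left' n0))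
        · exact mem_sup_left' (mem_sup_left' (mem_sup_left' n1))
        · exact mem_sup_left' (mem_sup_left' (mem_sup_self _ _))
        · exact mem_sup_left' (mem_sup_self _ _)
        · exact mem_sup_self _ _
      rw [hT]
      exact bd_top
    rw [← hK]
    have := hb.1
    exact Algebra.IsAlgebraic.of_finite K N
  refine ⟨?_, ?_, ?_⟩
  · change VPJ k (IntermediateField.fixedField ((![D.G1, D.G2, D.G3] : Fin 3 → Subgroup (N ≃ₐ[k] N)) 0)) 0
    rw [e1]
    refine vpj_g1_in (f := f) (A := C (D.c 0) + C (D.c 1) * X) (B := C (D.c 1) + C (D.c 2) * X) (htr 0) (hf 0) ?_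
    rw [D.hw]
    simp only [map_add, map_mul, aeval_C, aeval_X]
    ring
  · change VPJ k (IntermediateField.fixedField ((![D.G1, D.G2, D.G3] : Fin 3 → Subgroup (N ≃ₐ[k] N)) 1)) 1
    rw [e2]
    obtain ⟨a, b, c, h, hw⟩ := six_phi1 hf0 (hf5.trans (by norm_num)) (hf 0) (hf 1)
    exact vpj_six_in hind h hw
  · change VPJ k (IntermediateField.fixedField ((![D.G1, D.G2, D.G3] : Fin 3 → Subgroup (N ≃ₐ[k] N)) 2)) 1
    rw [e3]
    have hc : D.c 0 ≠ 0 ∨ D.c 1 ≠ 0 ∨ D.c 2 ≠ 0 := by
      by_contra hcon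
      push Not at hcon
      have h1 := D.hw
      rw [hcon.1, hcon.2.1, hcon.2.2, map_zero, zero_mul, zero_mul, add_zero, add_zero] at h1
      exact hz0 (pow_eq_zero_iff two_ne_zero |>.mp h1)
    obtain ⟨a, b, c, h, hw⟩ := six_psi2 hf0 hf5 (hf 0) (hf 1) hc D.hw
    exact vpj_six_in hind h hw

end Pool.Agent.Helper70.B4
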