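import Mathlib
import Pool.Agent.Helper9.NS
import Pool.Agent.Helper70.B4.PsiFix
import Pool.Agent.Helper98.IR.Multi
import Pool.Agent.Helper15.GT.RDec
import Pool.Agent.Helper70.B4.PiDefs

/-!
# B4: the double covers of products of two elliptic curves, `p_g = q = 2`, `K ^ 2 = 4`
-/

set_option linter.unusedSectionVars false

namespace Pool.Agent.Helper70.B4

open VC _root_.VF Function Polynomial
open Pool.Agent.Helper21.TO Pool.Agent.Helper21.TB Pool.Agent.Helper15.GT Pool.Agent.Helper70.KX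
open Pool.Agent.Helper67.IR

universe u

section fields

variable {k : Type u} [Field k] [IsAlgClosed k] [CharZero k]

/-- transfer to a subfield -/
theorem vpj_in {N : Type u} [Field N] [Algebra k N] {u v z : N} (huv : AlgebraicIndependent k ![u, v]) {p : ℕ}
    (H : ∀ (F : Type u) [Field F] [Algebra k F] (u' v' z' : F) (j : F →ₐ[k] N), j u' = u → j v' = v → j z' = z →
      AlgebraicIndependent k ![u', v'] → IntermediateField.adjoin k {u', v', z'} = ⊤ → VPJ k F p) :
    VPJ k (IntermediateField.adjoin k {u, v, z}) p :=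
  H _ ⟨u, mem1 u v z⟩ ⟨v, mem2 u v z⟩ ⟨z, mem3 u v z⟩ (IntermediateField.adjoin k {u, v, z}).val rfl rfl rfl
    (ind_down huv) (top_three u v z)

/-- `z ^ 2 = D (u) ∏ (v - a j)` -/
theorem vpj_l3 {D : k[X]} (hD : D ≠ 0) (hd : D.natDegree ≤ 4) {a : Fin 3 → k} (ha : Injective a) {F : Type u}
    [Field F] [Algebra k F] {u v z : F} (huv : AlgebraicIndependent k ![u, v])
    (hz : z ^ 2 = aeval u D * ∏ j, (v - algebraMap k F (a j)))
    (hgen : IntermediateField.adjoin k {u, v, z} = ⊤) : VPJ k F 1 := by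
  have hD' : aeval u D ≠ 0 := aeval_ne (ind_fst huv) hD
  have hgen' : IntermediateField.adjoin k {u, aeval u D * v, aeval u D * z} = ⊤ := by
    have hDm : aeval u D ∈ IntermediateField.adjoin k {u, aeval u D * v, aeval u D * z} :=
      pol_mem u (mem1 _ _ _) D
    refine gen_change hgen (mem1 _ _ _) ?_ ?_
    · have h := div_mem (mem2 u (aeval u D * v) (aeval u D * z)) hDm
      rwa [mul_div_cancel_left₀ _ hD'] at h
    · have h := div_mem (mem3 u (aeval u D * v) (aeval u D * z)) hDm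
      rwa [mul_div_cancel_left₀ _ hD'] at h
  have hy : (aeval u D * z) ^ 2 = ∏ j, (aeval u D * v - aeval u (D * C (a j))) := by
    rw [Fin.prod_univ_three] at hz ⊢
    simp only [map_mul, aeval_C]
    linear_combination aeval u D ^ 2 * hz
  refine vpj_leg (fun j => D * C (a j)) ?_ ?_ u (aeval u D * v) (aeval u D * z) ?_ hy hgen'
  · intro i
    exact (natDegree_mul_C_le _ _).trans hd
  · intro i j hij
    exact ha (C_injective (mul_left_cancel₀ hD hij))
  · refine ind_gen' huv hgen' ?_ hy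
    have hu1 : u ∈ IntermediateField.adjoin k {u, aeval u D * v} :=
      IntermediateField.subset_adjoin k _ (Or.inl rfl)
    have hx1 : aeval u D * v ∈ IntermediateField.adjoin k {u, aeval u D * v} :=
      IntermediateField.subset_adjoin k _ (Or.inr rfl)
    exact prod_mem fun j _ => sub_mem hx1 (pol_mem u hu1 _)

/-- `z ^ 2 = D (u) (v - a₀) (v - a₁) (v - a₂) (B (u) v + A (u))`, the general case -/
theorem vpj_l4 {D A B : k[X]} (hD : D ≠ 0) (hd : D.natDegree ≤ 3) (dA : A.natDegree ≤ 1) (dB : B.natDegree ≤ 1)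
    {a₀ a₁ a₂ : k} (h01 : a₀ ≠ a₁) (h02 : a₀ ≠ a₂) (h12 : a₁ ≠ a₂) (s0 : B * C a₀ + A ≠ 0) (s1 : B * C a₁ + A ≠ 0)
    (s2 : B * C a₂ + A ≠ 0) {F : Type u} [Field F] [Algebra k F] {u v z : F}
    (huv : AlgebraicIndependent k ![u, v])
    (hz : z ^ 2 = aeval u D * ((v - algebraMap k F a₀) * ((v - algebraMap k F a₁) * (v - algebraMap k F a₂)) *
      (aeval u B * v + aeval u A)))
    (hgen : IntermediateField.adjoin k {u, v, z} = ⊤) : VPJ k F 1 := by
  have hv : v - algebraMap k F a₀ ≠ 0 := by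
    have h := sub_pol_ne huv (C a₀)
    rwa [aeval_C] at h
  obtain ⟨s, hs⟩ : ∃ s, s = (v - algebraMap k F a₀)⁻¹ := ⟨_, rfl⟩
  have hs1 : s * (v - algebraMap k F a₀) = 1 := by rw [hs, inv_mul_cancel₀ hv]
  have hs0 : s ≠ 0 := left_ne_zero_of_mul_eq_one hs1
  obtain ⟨r₁, hr₁⟩ : ∃ r : k, r = a₀ - a₁ := ⟨_, rfl⟩
  obtain ⟨r₂, hr₂⟩ : ∃ r : k, r = a₀ - a₂ := ⟨_, rfl⟩
  have hr₁0 : r₁ ≠ 0 := by rw [hr₁]; exact sub_ne_zero.mpr h01
  have hr₂0 : r₂ ≠ 0 := by rw [hr₂]; exact sub_ne_zero.mpr h02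
  obtain ⟨S, hS⟩ : ∃ S : k[X], S = B * C a₀ + A := ⟨_, rfl⟩
  have hS0 : S ≠ 0 := by rw [hS]; exact s0
  have dS : S.natDegree ≤ 1 := by
    rw [hS]
    exact (natDegree_add_le _ _).trans (max_le ((natDegree_mul_C_le _ _).trans dB) dA)
  obtain ⟨Δ, hΔ⟩ : ∃ Δ : k[X], Δ = D * C (r₁ * r₂) * S := ⟨_, rfl⟩
  have hΔ0 : Δ ≠ 0 := by
    rw [hΔ]
    exact mul_ne_zero (mul_ne_zero hD (C_ne_zero.mpr (mul_ne_zero hr₁0 hr₂0))) hS0
  have hΔ' : aeval u Δ ≠ 0 := aeval_ne (ind_fst huv) hΔ0
  have hgen' : IntermediateField.adjoin k {u, aeval u Δ * s, aeval u Δ * (z * s ^ 2)} = ⊤ := by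
    have hDm : aeval u Δ ∈ IntermediateField.adjoin k {u, aeval u Δ * s, aeval u Δ * (z * s ^ 2)} :=
      pol_mem u (mem1 _ _ _) Δ
    have hsm : s ∈ IntermediateField.adjoin k {u, aeval u Δ * s, aeval u Δ * (z * s ^ 2)} := by
      have h := div_mem (mem2 u (aeval u Δ * s) (aeval u Δ * (z * s ^ 2))) hDm
      rwa [mul_div_cancel_left₀ _ hΔ'] at h
    refine gen_change hgen (mem1 _ _ _) ?_ ?_
    · have h := add_mem (inv_mem hsm) (IntermediateField.algebraMap_mem
        (IntermediateField.adjoin k {u, aeval u Δ * s, aeval u Δ * (z * s ^ 2)}) a₀)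
      have e : s⁻¹ + algebraMap k F a₀ = v := by
        rw [hs, inv_inv]
        ring
      rwa [e] at h
    · have h := div_mem (div_mem (mem3 u (aeval u Δ * s) (aeval u Δ * (z * s ^ 2))) hDm) (pow_mem hsm 2)
      rwa [mul_div_cancel_left₀ _ hΔ', mul_div_cancel_right₀ _ (pow_ne_zero 2 hs0)] at h
  have hy : (aeval u Δ * (z * s ^ 2)) ^ 2 = ∏ j, (aeval u Δ * s -
      aeval u ((![-(D * C r₂ * S), -(D * C r₁ * S), -(D * C (r₁ * r₂) * B)] : Fin 3 → k[X]) j)) := by
    have h1 : ∀ e : k, s * (v - algebraMap k F e) = algebraMap k F (a₀ - e) * s + 1 := by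
      intro e
      rw [map_sub]
      linear_combination hs1
    have h3 : s * (aeval u B * v + aeval u A) = aeval u S * s + aeval u B := by
      rw [hS, map_add, map_mul, aeval_C]
      linear_combination aeval u B * hs1
    have h2 : (z * s ^ 2) ^ 2 = aeval u D * ((algebraMap k F r₁ * s + 1) * (algebraMap k F r₂ * s + 1) *
        (aeval u S * s + aeval u B)) := by
      rw [← h3, hr₁, hr₂, ← h1, ← h1, mul_pow, hz]
      linear_combination aeval u D * (v - algebraMap k F a₁) * (v - algebraMap k F a₂) *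
        (aeval u B * v + aeval u A) * s ^ 3 * hs1
    rw [mul_pow, h2, hΔ, Fin.prod_univ_three]
    simp only [Matrix.cons_val_zero, Matrix.cons_val_one, Matrix.cons_val, map_mul, map_neg, aeval_C]
    ring
  have n1 : -(D * C r₂ * S) ≠ -(D * C r₁ * S) := by
    intro h
    have h1 := mul_left_cancel₀ hD (mul_right_cancel₀ hS0 (neg_injective h))
    have h2 : r₂ = r₁ := C_injective h1
    rw [hr₁, hr₂] at h2
    exact h12 (by linear_combination h2)
  have n2 : -(D * C r₂ * S) ≠ -(D * C (r₁ * r₂) * B) := by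
    intro h
    have h0 := neg_injective h
    have h1 : D * C r₂ * (S - C r₁ * B) = 0 := by
      rw [C_mul] at h0
      linear_combination h0
    rcases mul_eq_zero.mp h1 with h2 | h2
    · rcases mul_eq_zero.mp h2 with h3 | h3
      · exact hD h3
      · exact hr₂0 (C_eq_zero.mp h3)
    · apply s1
      rw [hS, hr₁, C_sub] at h2
      linear_combination h2
  have n3 : -(D * C r₁ * S) ≠ -(D * C (r₁ * r₂) * B) := by
    intro h
    have h0 := neg_injective h
    have h1 : D * C r₁ * (S - C r₂ * B) = 0 := by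
      rw [C_mul] at h0
      linear_combination h0
    rcases mul_eq_zero.mp h1 with h2 | h2
    · rcases mul_eq_zero.mp h2 with h3 | h3
      · exact hD h3
      · exact hr₁0 (C_eq_zero.mp h3)
    · apply s2
      rw [hS, hr₂, C_sub] at h2
      linear_combination h2
  have hdm : ∀ (r : k) (P : k[X]), P.natDegree ≤ 1 → (-(D * C r * P)).natDegree ≤ 4 := by
    intro r P hP
    rw [natDegree_neg]
    refine natDegree_mul_le.trans ?_
    have := (natDegree_mul_C_le D r).trans hd
    omega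
  refine vpj_leg ![-(D * C r₂ * S), -(D * C r₁ * S), -(D * C (r₁ * r₂) * B)] ?_ ?_ u (aeval u Δ * s)
    (aeval u Δ * (z * s ^ 2)) ?_ hy hgen'
  · intro i
    fin_cases i
    · exact hdm _ _ dS
    · exact hdm _ _ dS
    · exact hdm _ _ dB
  · intro i j hij
    fin_cases i <;> fin_cases j
    · rfl
    · exact absurd hij n1
    · exact absurd hij n2
    · exact absurd hij.symm n1
    · rfl
    · exact absurd hij n3
    · exact absurd hij.symm n2
    · exact absurd hij.symm n3
    · rfl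
  · refine ind_gen' huv hgen' ?_ hy
    have hu1 : u ∈ IntermediateField.adjoin k {u, aeval u Δ * s} :=
      IntermediateField.subset_adjoin k _ (Or.inl rfl)
    have hx1 : aeval u Δ * s ∈ IntermediateField.adjoin k {u, aeval u Δ * s} :=
      IntermediateField.subset_adjoin k _ (Or.inr rfl)
    exact prod_mem fun j _ => sub_mem hx1 (pol_mem u hu1 _)

/-- `z ^ 2 = D (u) (v - b) (v - b') (v - a) (B (u) (v - a))`: a factor twice -/
theorem vpj_l4' {D B : k[X]} (hD : D ≠ 0) (hB : B ≠ 0) {a b b' : k} (hb : b ≠ b') {F : Type u} [Field F]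
    [Algebra k F] {u v z : F} (huv : AlgebraicIndependent k ![u, v])
    (hz : z ^ 2 = aeval u D * aeval u B * ((v - algebraMap k F b) * (v - algebraMap k F b')) *
      (v - algebraMap k F a) ^ 2)
    (hgen : IntermediateField.adjoin k {u, v, z} = ⊤) : VPJ k F 1 := by
  have hv : v - algebraMap k F a ≠ 0 := by
    have h := sub_pol_ne huv (C a)
    rwa [aeval_C] at h
  refine q2 (D := D * B) (a := C b) (b := C b') (mul_ne_zero hD hB) (fun h => hb (C_injective h)) huv
    (w := z / (v - algebraMap k F a)) ?_ ?_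
  · rw [div_pow, hz, mul_div_assoc, div_self (pow_ne_zero 2 hv), mul_one, map_mul, aeval_C, aeval_C]
  · have hm : v - algebraMap k F a ∈ IntermediateField.adjoin k {u, v, z / (v - algebraMap k F a)} :=
      sub_mem (mem2 _ _ _) (IntermediateField.algebraMap_mem _ _)
    refine gen_change hgen (mem1 _ _ _) (mem2 _ _ _) ?_
    have h1 := mul_mem (mem3 u v (z / (v - algebraMap k F a))) hm
    rwa [div_mul_cancel₀ _ hv] at h1

/-- the fourth field -/
theorem vpj_l4all {D A B : k[X]} (hD : D ≠ 0) (hd : D.natDegree ≤ 3) (dA : A.natDegree ≤ 1) (dB : B.natDegree ≤ 1)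
    (hAB : A ≠ 0 ∨ B ≠ 0) {a : Fin 3 → k} (ha : Injective a) {F : Type u} [Field F] [Algebra k F] {u v z : F}
    (huv : AlgebraicIndependent k ![u, v])
    (hz : z ^ 2 = aeval u D * (∏ j, (v - algebraMap k F (a j))) * (aeval u B * v + aeval u A))
    (hgen : IntermediateField.adjoin k {u, v, z} = ⊤) : VPJ k F 1 := by
  have h01 : a 0 ≠ a 1 := fun h => by simpa using ha h
  have h02 : a 0 ≠ a 2 := fun h => by simpa using ha h
  have h12 : a 1 ≠ a 2 := fun h => by simpa using ha h
  rw [Fin.prod_univ_three] at hz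
  have hB : ∀ j, B * C (a j) + A = 0 → B ≠ 0 ∧ aeval u A = -(aeval u B * algebraMap k F (a j)) := by
    intro j h
    constructor
    · rintro rfl
      rw [zero_mul, zero_add] at h
      rcases hAB with h1 | h1
      · exact h1 h
      · exact h1 rfl
    · have h1 : A = -(B * C (a j)) := by linear_combination h
      rw [h1, map_neg, map_mul, aeval_C]
  by_cases s0 : B * C (a 0) + A = 0
  · obtain ⟨hB0, e⟩ := hB 0 s0
    refine vpj_l4' hD hB0 h12 huv (a := a 0) ?_ hgen
    rw [hz, e]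
    ring
  by_cases s1 : B * C (a 1) + A = 0
  · obtain ⟨hB0, e⟩ := hB 1 s1
    refine vpj_l4' hD hB0 h02 huv (a := a 1) ?_ hgen
    rw [hz, e]
    ring
  by_cases s2 : B * C (a 2) + A = 0
  · obtain ⟨hB0, e⟩ := hB 2 s2
    refine vpj_l4' hD hB0 h01 huv (a := a 2) ?_ hgen
    rw [hz, e]
    ring
  refine vpj_l4 hD hd dA dB h01 h02 h12 s0 s1 s2 huv ?_ hgen
  rw [hz]
  ring

end fields

/-! ### The group -/

/-- the group of the signs -/
abbrev GG : Type u := ULift.{u} (Fin 3 → ℤˣ)

/-- the four subgroups -/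
def Gam : Fin 4 → Subgroup GG.{u}
  | 0 => { carrier := {g | g.down 0 = 1 ∧ g.down 2 = 1}
           one_mem' := ⟨rfl, rfl⟩
           mul_mem' := fun {a b} ha hb => ⟨by
             change a.down 0 * b.down 0 = 1
             rw [ha.1, hb.1, one_mul], by
             change a.down 2 * b.down 2 = 1
             rw [ha.2, hb.2, one_mul]⟩
           inv_mem' := fun {a} ha => ⟨by
             change (a.down 0)⁻¹ = 1
             rw [ha.1, inv_one], by
             change (a.down 2)⁻¹ = 1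
             rw [ha.2, inv_one]⟩ }
  | 1 => { carrier := {g | g.down 1 = 1 ∧ g.down 2 = 1}
           one_mem' := ⟨rfl, rfl⟩
           mul_mem' := fun {a b} ha hb => ⟨by
             change a.down 1 * b.down 1 = 1
             rw [ha.1, hb.1, one_mul], by
             change a.down 2 * b.down 2 = 1
             rw [ha.2, hb.2, one_mul]⟩
           inv_mem' := fun {a} ha => ⟨by
             change (a.down 1)⁻¹ = 1
             rw [ha.1, inv_one], by
             change (a.down 2)⁻¹ = 1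
             rw [ha.2, inv_one]⟩ }
  | 2 => { carrier := {g | g.down 0 * g.down 1 = 1}
           one_mem' := rfl
           mul_mem' := fun {a b} ha hb => by
             change a.down 0 * b.down 0 * (a.down 1 * b.down 1) = 1
             have ha' : a.down 0 * a.down 1 = 1 := ha
             have hb' : b.down 0 * b.down 1 = 1 := hb
             rw [mul_mul_mul_comm, ha', hb', one_mul]
           inv_mem' := fun {a} ha => by
             change (a.down 0)⁻¹ * (a.down 1)⁻¹ = 1
             have ha' : a.down 0 * a.down 1 = 1 := ha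
             rw [← mul_inv, ha', inv_one] }
  | 3 => { carrier := {g | g.down 0 * g.down 1 * g.down 2 = 1}
           one_mem' := rfl
           mul_mem' := fun {a b} ha hb => by
             change a.down 0 * b.down 0 * (a.down 1 * b.down 1) * (a.down 2 * b.down 2) = 1
             have ha' : a.down 0 * a.down 1 * a.down 2 = 1 := ha
             have hb' : b.down 0 * b.down 1 * b.down 2 = 1 := hb
             rw [mul_mul_mul_comm (a.down 0), mul_mul_mul_comm (a.down 0 * a.down 1), ha', hb', one_mul]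
           inv_mem' := fun {a} ha => by
             change (a.down 0)⁻¹ * (a.down 1)⁻¹ * (a.down 2)⁻¹ = 1
             have ha' : a.down 0 * a.down 1 * a.down 2 = 1 := ha
             rw [← mul_inv, ← mul_inv, ha', inv_one] }

/-- the elements of the four subgroups -/
def lst : Fin 4 → Finset (Fin 3 → ℤˣ)
  | 0 => {1, ![1, -1, 1]}
  | 1 => {1, ![-1, 1, 1]}
  | 2 => {1, ![-1, -1, 1], ![1, 1, -1], ![-1, -1, -1]}
  | 3 => {1, ![-1, -1, 1], ![-1, 1, -1], ![1, -1, -1]}

lemma mem_lst0 : ∀ f : Fin 3 → ℤˣ, (f 0 = 1 ∧ f 2 = 1) ↔ f ∈ lst 0 := by decide +kernel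
lemma mem_lst1 : ∀ f : Fin 3 → ℤˣ, (f 1 = 1 ∧ f 2 = 1) ↔ f ∈ lst 1 := by decide +kernel
lemma mem_lst2 : ∀ f : Fin 3 → ℤˣ, (f 0 * f 1 = 1) ↔ f ∈ lst 2 := by decide +kernel
lemma mem_lst3 : ∀ f : Fin 3 → ℤˣ, (f 0 * f 1 * f 2 = 1) ↔ f ∈ lst 3 := by decide +kernel

lemma mem_Gam (i : Fin 4) (g : GG.{u}) : g ∈ Gam i ↔ g.down ∈ lst i := by
  fin_cases i
  · exact mem_lst0 g.down
  · exact mem_lst1 g.down
  · exact mem_lst2 g.down
  · exact mem_lst3 g.down

lemma eG_Gam (i : Fin 4) : eG (Gam.{u} i) = ∑ f ∈ lst i, MonoidAlgebra.of ℚ GG.{u} ⟨f⟩ := by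
  classical
  unfold eG
  have h1 : (∑ᶠ γ : Gam.{u} i, MonoidAlgebra.of ℚ GG.{u} (γ : GG.{u})) =
      ∑ᶠ (g : GG.{u}) (_ : g ∈ Gam.{u} i), MonoidAlgebra.of ℚ GG.{u} g :=
    finsum_subtype_eq_finsum_cond _
  rw [h1]
  have h2 : (∑ f ∈ lst i, MonoidAlgebra.of ℚ GG.{u} ⟨f⟩) =
      ∑ g ∈ (lst i).map (Equiv.ulift.{u}.symm.toEmbedding), MonoidAlgebra.of ℚ GG.{u} g := by
    rw [Finset.sum_map]
    rfl
  rw [h2, ← finsum_mem_coe_finset]
  refine finsum_congr fun g => ?_
  refine finsum_congr_Prop ?_ fun _ => rfl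
  apply propext
  rw [mem_Gam, Finset.mem_coe, Finset.mem_map]
  constructor
  · exact fun h => ⟨g.down, h, rfl⟩
  · rintro ⟨f, hf, rfl⟩
    exact hf

lemma card_Gam (i : Fin 4) : Nat.card (Gam.{u} i) = (lst i).card := by
  have h : Nat.card (Gam.{u} i) = Nat.card {f // f ∈ lst i} :=
    Nat.card_congr (Equiv.subtypeEquiv Equiv.ulift.{u} (fun g => mem_Gam i g))
  rw [h, Nat.card_eq_fintype_card, Fintype.card_coe]

theorem span_Gam : Ideal.span (Set.range fun i => eG (Gam.{u} i)) = ⊤ := by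
  classical
  rw [Ideal.eq_top_iff_one]
  obtain ⟨A, hA⟩ : ∃ A, A = MonoidAlgebra.of ℚ GG.{u} ⟨![-1, 1, 1]⟩ := ⟨_, rfl⟩
  obtain ⟨B, hB⟩ : ∃ B, B = MonoidAlgebra.of ℚ GG.{u} ⟨![1, -1, 1]⟩ := ⟨_, rfl⟩
  obtain ⟨C, hC⟩ : ∃ C, C = MonoidAlgebra.of ℚ GG.{u} ⟨![1, 1, -1]⟩ := ⟨_, rfl⟩
  have h1 : MonoidAlgebra.of ℚ GG.{u} ⟨1⟩ = 1 := map_one _
  have eAB : MonoidAlgebra.of ℚ GG.{u} ⟨![-1, -1, 1]⟩ = A * B := by
    rw [hA, hB, ← map_mul]
    congr 1
    apply ULift.down_injective
    decide
  have eABC : MonoidAlgebra.of ℚ GG.{u} ⟨![-1, -1, -1]⟩ = A * B * C := by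
    rw [hA, hB, hC, ← map_mul, ← map_mul]
    congr 1
    apply ULift.down_injective
    decide
  have eAC : MonoidAlgebra.of ℚ GG.{u} ⟨![-1, 1, -1]⟩ = A * C := by
    rw [hA, hC, ← map_mul]
    congr 1
    apply ULift.down_injective
    decide
  have eBC : MonoidAlgebra.of ℚ GG.{u} ⟨![1, -1, -1]⟩ = B * C := by
    rw [hB, hC, ← map_mul]
    congr 1
    apply ULift.down_injective
    decide
  have eA : A * A = 1 := by
    rw [hA, ← map_mul, ← h1]
    congr 1
    apply ULift.down_injective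
    decide
  have eB : B * B = 1 := by
    rw [hB, ← map_mul, ← h1]
    congr 1
    apply ULift.down_injective
    decide
  have g0 : eG (Gam.{u} 0) = 1 + B := by
    rw [eG_Gam]
    change ∑ f ∈ ({1, ![1, -1, 1]} : Finset (Fin 3 → ℤˣ)), _ = _
    rw [Finset.sum_pair (by decide), h1, hB]
  have g1 : eG (Gam.{u} 1) = 1 + A := by
    rw [eG_Gam]
    change ∑ f ∈ ({1, ![-1, 1, 1]} : Finset (Fin 3 → ℤˣ)), _ = _
    rw [Finset.sum_pair (by decide), h1, hA]
  have g2 : eG (Gam.{u} 2) = 1 + A * B + C + A * B * C := by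
    rw [eG_Gam]
    change ∑ f ∈ ({1, ![-1, -1, 1], ![1, 1, -1], ![-1, -1, -1]} : Finset (Fin 3 → ℤˣ)), _ = _
    rw [Finset.sum_insert (by decide), Finset.sum_insert (by decide), Finset.sum_pair (by decide), h1, eAB, eABC, ← hC]
    ring
  have g3 : eG (Gam.{u} 3) = 1 + A * B + A * C + B * C := by
    rw [eG_Gam]
    change ∑ f ∈ ({1, ![-1, -1, 1], ![-1, 1, -1], ![1, -1, -1]} : Finset (Fin 3 → ℤˣ)), _ = _
    rw [Finset.sum_insert (by decide), Finset.sum_insert (by decide), Finset.sum_pair (by decide), h1, eAB, eAC, eBC]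
    ring
  have hm : ∀ i, eG (Gam.{u} i) ∈ Ideal.span (Set.range fun i => eG (Gam.{u} i)) := fun i =>
    Ideal.subset_span ⟨i, rfl⟩
  have key : (1 : MonoidAlgebra ℚ GG.{u}) = algebraMap ℚ _ (1 / 2) * eG (Gam.{u} 0) + algebraMap ℚ _ (1 / 2) * eG (Gam.{u} 1) +
      (-(algebraMap ℚ _ (1 / 4) * (1 + A))) * eG (Gam.{u} 0) + (algebraMap ℚ _ (1 / 4) * (1 - (1 + A))) * eG (Gam.{u} 2) +
      algebraMap ℚ _ (1 / 4) * eG (Gam.{u} 3) := by
    rw [g0, g1, g2, g3]
    have e2 : algebraMap ℚ (MonoidAlgebra ℚ GG.{u}) (1 / 2) = 2 * algebraMap ℚ _ (1 / 4) := by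
      rw [← map_ofNat (algebraMap ℚ (MonoidAlgebra ℚ GG.{u})) 2, ← map_mul]
      congr 1
      norm_num
    have e4 : 4 * algebraMap ℚ (MonoidAlgebra ℚ GG.{u}) (1 / 4) = 1 := by
      rw [← map_ofNat (algebraMap ℚ (MonoidAlgebra ℚ GG.{u})) 4, ← map_mul, ← map_one (algebraMap ℚ (MonoidAlgebra ℚ GG.{u}))]
      congr 1
      norm_num
    rw [e2]
    linear_combination -e4 + algebraMap ℚ _ (1 / 4) * (B + B * C) * eA
  rw [key]
  exact add_mem (add_mem (add_mem (add_mem (Ideal.mul_mem_left _ _ (hm 0)) (Ideal.mul_mem_left _ _ (hm 1)))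
    (Ideal.mul_mem_left _ _ (hm 0))) (Ideal.mul_mem_left _ _ (hm 2))) (Ideal.mul_mem_left _ _ (hm 3))

/-! ### The theorem -/

variable {k N : Type u} [Field k] [IsAlgClosed k] [CharZero k] [Field N] [Algebra k N]

/-- The double cover of the product of two curves of genus one has Voisin's property for `n > 2`. -/
theorem Pi.vpj (D : Pi k N) : VPJ k N 2 := by
  classical
  have hN : CharZero N := charZero_of_injective_algebraMap (algebraMap k N).injective
  obtain ⟨f, hfd⟩ : ∃ f : Fin 2 → k[X], f = fun i => ∏ j, (X - C (D.a i j)) := ⟨_, rfl⟩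
  have hf : ∀ i, D.y i ^ 2 = aeval (D.x i) (f i) := by
    intro i
    rw [D.hy i, hfd, map_prod]
    refine Finset.prod_congr rfl fun j _ => ?_
    rw [map_sub, aeval_X, aeval_C]
  have hf0 : ∀ i, f i ≠ 0 := by
    intro i
    rw [hfd]
    exact Finset.prod_ne_zero_iff.mpr fun j _ => X_sub_C_ne_zero _
  have hf3 : ∀ i, (f i).natDegree ≤ 3 := by
    intro i
    rw [hfd]
    simp only
    rw [natDegree_prod_of_monic _ _ fun j _ => monic_X_sub_C _]
    simp
  have htr : ∀ i, Transcendental k (D.x i) := by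
    intro i
    fin_cases i
    · exact D.hx.transcendental 0
    · exact D.hx.transcendental 1
  have hy0 : ∀ i, D.y i ≠ 0 := by
    intro i h
    have h1 := hf i
    rw [h, zero_pow two_ne_zero] at h1
    exact aeval_ne (htr i) (hf0 i) h1.symm
  obtain ⟨E, hE⟩ : ∃ E, E = IntermediateField.adjoin k ({D.x 0, D.x 1} : Set N) := ⟨_, rfl⟩
  have m0 : D.x 0 ∈ E := by rw [hE]; exact IntermediateField.subset_adjoin k _ (Or.inl rfl)
  have m1 : D.x 1 ∈ E := by rw [hE]; exact IntermediateField.subset_adjoin k _ (Or.inr rfl)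
  have hw2 : D.w ^ 2 ∈ E := by
    rw [D.hw]
    exact add_mem (mem_lin m0 m1) (mul_mem (IntermediateField.algebraMap_mem _ _) (mul_mem m0 m1))
  have hgen5 : IntermediateField.adjoin k ({D.x 0, D.x 1, D.y 0, D.y 1, D.w} : Set N) = ⊤ := by
    refine eq_top_of D.hgen ?_
    rintro s ((⟨i, rfl⟩ | ⟨i, rfl⟩) | rfl)
    · refine IntermediateField.subset_adjoin k _ ?_
      fin_cases i <;> simp
    · refine IntermediateField.subset_adjoin k _ ?_
      fin_cases i <;> simp
    · exact IntermediateField.subset_adjoin k _ (by simp)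
  have hdeg : Module.finrank E N = 2 ^ 3 := by
    rw [hE, D.hdeg]
    norm_num
  have hz0 : D.w ≠ 0 := by
    intro h
    have hb : Bd E 4 := by
      refine bd_sqrt (m := 2) (D.y 0) (by rw [hf]; exact aeval_mem' m0 _) ?_
      refine bd_sqrt (m := 1) (D.y 1) (by rw [hf]; exact aeval_mem' (mem_sup_left' m1) _) ?_
      have hT : E ⊔ IntermediateField.adjoin k {D.y 0} ⊔ IntermediateField.adjoin k {D.y 1} = ⊤ := by
        refine eq_top_of hgen5 ?_
        rintro s (rfl | rfl | rfl | rfl | rfl)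
        · exact mem_sup_left' (mem_sup_left' m0)
        · exact mem_sup_left' (mem_sup_left' m1)
        · exact mem_sup_left' (mem_sup_self _ _)
        · exact mem_sup_self _ _
        · rw [h]
          exact zero_mem _
      rw [hT]
      exact bd_top
    have h1 := hb.2
    rw [hdeg] at h1
    omega
  -- the automorphisms
  obtain ⟨Y, hY⟩ : ∃ Y : Fin 3 → N, Y = ![D.y 0, D.y 1, D.w] := ⟨_, rfl⟩
  have hYE : ∀ i, ∃ e : E, Y i ^ 2 = algebraMap E N e := by
    intro i
    rw [hY]
    fin_cases i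
    · exact ⟨⟨D.y 0 ^ 2, by rw [hf]; exact aeval_mem' m0 _⟩, rfl⟩
    · exact ⟨⟨D.y 1 ^ 2, by rw [hf]; exact aeval_mem' m1 _⟩, rfl⟩
    · exact ⟨⟨D.w ^ 2, hw2⟩, rfl⟩
  choose e he using hYE
  have hgenE : IntermediateField.adjoin E (Set.range Y) = ⊤ := by
    apply IntermediateField.restrictScalars_injective k
    rw [IntermediateField.restrictScalars_top, eq_top_iff, ← hgen5, IntermediateField.adjoin_le_iff]
    have hr : ∀ i, Y i ∈ IntermediateField.adjoin E (Set.range Y) := fun i =>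
      IntermediateField.subset_adjoin E _ ⟨i, rfl⟩
    rw [hY] at hr ⊢
    rintro s (rfl | rfl | rfl | rfl | rfl)
    · exact (IntermediateField.adjoin E _).algebraMap_mem ⟨D.x 0, m0⟩
    · exact (IntermediateField.adjoin E _).algebraMap_mem ⟨D.x 1, m1⟩
    · exact hr 0
    · exact hr 1
    · exact hr 2
  have hT : ∀ ε : Fin 3 → ℤˣ, ∃ σ : N ≃ₐ[k] N, σ (D.x 0) = D.x 0 ∧ σ (D.x 1) = D.x 1 ∧ σ (D.y 0) = sg (ε 0) * D.y 0 ∧
      σ (D.y 1) = sg (ε 1) * D.y 1 ∧ σ D.w = sg (ε 2) * D.w := by
    intro ε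
    obtain ⟨σ, hσ⟩ := Pool.Agent.Helper98.IR.exists_sign he hgenE hdeg ε
    rw [hY] at hσ
    exact ⟨σ.restrictScalars k, σ.commutes ⟨D.x 0, m0⟩, σ.commutes ⟨D.x 1, m1⟩, hσ 0, hσ 1, hσ 2⟩
  choose T t0 t1 t2 t3 t4 using hT
  have hmul : ∀ ε ε', T (ε * ε') = T ε * T ε' := by
    intro ε ε'
    refine ext_of_gen hgen5 ?_
    rintro s (rfl | rfl | rfl | rfl | rfl)
    · rw [AlgEquiv.mul_apply, t0, t0, t0]
    · rw [AlgEquiv.mul_apply, t1, t1, t1]
    · rw [AlgEquiv.mul_apply, t2, t2, map_mul, map_sg, t2, Pi.mul_apply, sg_mul]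
      ring
    · rw [AlgEquiv.mul_apply, t3, t3, map_mul, map_sg, t3, Pi.mul_apply, sg_mul]
      ring
    · rw [AlgEquiv.mul_apply, t4, t4, map_mul, map_sg, t4, Pi.mul_apply, sg_mul]
      ring
  let ρ : GG.{u} →* (N ≃ₐ[k] N) := MonoidHom.mk' (fun g => T g.down) fun a b => hmul a.down b.down
  have hρ : Injective ρ := by
    intro a b h
    have h' : T a.down = T b.down := h
    apply ULift.down_injective
    funext i
    fin_cases i
    · have e1 := t2 a.down
      rw [h', t2] at e1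
      exact (sg_inj (mul_right_cancel₀ (hy0 0) e1)).symm
    · have e1 := t3 a.down
      rw [h', t3] at e1
      exact (sg_inj (mul_right_cancel₀ (hy0 1) e1)).symm
    · have e1 := t4 a.down
      rw [h', t4] at e1
      exact (sg_inj (mul_right_cancel₀ hz0 e1)).symm
  have hcard : ∀ i, Nat.card ((Gam.{u} i).map ρ) = (lst i).card := by
    intro i
    rw [← card_Gam.{u} i]
    exact (Nat.card_congr ((Gam.{u} i).equivMapOfInjective ρ hρ).toEquiv).symm
  have hfin : ∀ i, Finite ((Gam.{u} i).map ρ) := fun i =>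
    Finite.of_equiv _ ((Gam.{u} i).equivMapOfInjective ρ hρ).toEquiv
  have hle : ∀ (i : Fin 4) (S : Set N), (∀ f ∈ lst i, ∀ s ∈ S, T f s = s) →
      IntermediateField.adjoin k S ≤ IntermediateField.fixedField ((Gam.{u} i).map ρ) := by
    intro i S hS
    rw [IntermediateField.adjoin_le_iff]
    intro s hs
    rw [SetLike.mem_coe, IntermediateField.mem_fixedField_iff]
    rintro _ ⟨g, hg, rfl⟩
    exact hS g.down ((mem_Gam i g).mp hg) s hs
  -- the fixed fields
  have f0 : IntermediateField.fixedField ((Gam.{u} 0).map ρ) =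
      IntermediateField.adjoin k {D.x 0, D.x 1, D.y 0, D.w} := by
    have := hfin 0
    refine eq_fixedField (m := 2) ?_ _ (hle 0 _ ?_) (by rw [hcard]; decide)
    · refine bd_sqrt (m := 1) (D.y 1) ?_ ?_
      · rw [hf]
        exact aeval_mem' (IntermediateField.subset_adjoin k _ (by simp)) _
      · rw [eq_top_of hgen5 (K := IntermediateField.adjoin k {D.x 0, D.x 1, D.y 0, D.w} ⊔
          IntermediateField.adjoin k {D.y 1}) ?_]
        · exact bd_top
        · rintro s (rfl | rfl | rfl | rfl | rfl)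
          · exact mem_sup_left' (IntermediateField.subset_adjoin k _ (by simp))
          · exact mem_sup_left' (IntermediateField.subset_adjoin k _ (by simp))
          · exact mem_sup_left' (IntermediateField.subset_adjoin k _ (by simp))
          · exact mem_sup_self _ _
          · exact mem_sup_left' (IntermediateField.subset_adjoin k _ (by simp))
    · intro g hg
      obtain ⟨h1, h2⟩ := (mem_lst0 g).mpr hg
      rintro s (rfl | rfl | rfl | rfl)
      · exact t0 g
      · exact t1 g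
      · rw [t2, h1, sg_one, one_mul]
      · rw [t4, h2, sg_one, one_mul]
  have f1 : IntermediateField.fixedField ((Gam.{u} 1).map ρ) =
      IntermediateField.adjoin k {D.x 1, D.x 0, D.y 1, D.w} := by
    have := hfin 1
    refine eq_fixedField (m := 2) ?_ _ (hle 1 _ ?_) (by rw [hcard]; decide)
    · refine bd_sqrt (m := 1) (D.y 0) ?_ ?_
      · rw [hf]
        exact aeval_mem' (IntermediateField.subset_adjoin k _ (by simp)) _
      · rw [eq_top_of hgen5 (K := IntermediateField.adjoin k {D.x 1, D.x 0, D.y 1, D.w} ⊔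
          IntermediateField.adjoin k {D.y 0}) ?_]
        · exact bd_top
        · rintro s (rfl | rfl | rfl | rfl | rfl)
          · exact mem_sup_left' (IntermediateField.subset_adjoin k _ (by simp))
          · exact mem_sup_left' (IntermediateField.subset_adjoin k _ (by simp))
          · exact mem_sup_self _ _
          · exact mem_sup_left' (IntermediateField.subset_adjoin k _ (by simp))
          · exact mem_sup_left' (IntermediateField.subset_adjoin k _ (by simp))
    · intro g hg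
      obtain ⟨h1, h2⟩ := (mem_lst1 g).mpr hg
      rintro s (rfl | rfl | rfl | rfl)
      · exact t1 g
      · exact t0 g
      · rw [t3, h1, sg_one, one_mul]
      · rw [t4, h2, sg_one, one_mul]
  have f2 : IntermediateField.fixedField ((Gam.{u} 2).map ρ) =
      IntermediateField.adjoin k {D.x 0, D.x 1, D.y 0 * D.y 1} := by
    have := hfin 2
    refine eq_fixedField (m := 4) ?_ _ (hle 2 _ ?_) (by rw [hcard]; decide)
    · have n0 : D.x 0 ∈ IntermediateField.adjoin k {D.x 0, D.x 1, D.y 0 * D.y 1} := mem1 _ _ _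
      have n1 : D.x 1 ∈ IntermediateField.adjoin k {D.x 0, D.x 1, D.y 0 * D.y 1} := mem2 _ _ _
      refine bd_sqrt (m := 2) (D.y 0) (by rw [hf]; exact aeval_mem' n0 _) ?_
      refine bd_sqrt (m := 1) D.w ?_ ?_
      · rw [D.hw]
        exact mem_sup_left' (add_mem (mem_lin n0 n1) (mul_mem (IntermediateField.algebraMap_mem _ _) (mul_mem n0 n1)))
      · rw [eq_top_of hgen5 (K := IntermediateField.adjoin k {D.x 0, D.x 1, D.y 0 * D.y 1} ⊔
          IntermediateField.adjoin k {D.y 0} ⊔ IntermediateField.adjoin k {D.w}) ?_]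
        · exact bd_top
        · rintro s (rfl | rfl | rfl | rfl | rfl)
          · exact mem_sup_left' (mem_sup_left' n0)
          · exact mem_sup_left' (mem_sup_left' n1)
          · exact mem_sup_left' (mem_sup_self _ _)
          · have h := div_mem (mem_sup_left' (L := IntermediateField.adjoin k {D.w}) (mem_sup_left'
              (L := IntermediateField.adjoin k {D.y 0}) (mem3 (k := k) (D.x 0) (D.x 1) (D.y 0 * D.y 1))))
              (mem_sup_left' (mem_sup_self _ _))
            rwa [mul_div_cancel_left₀ _ (hy0 0)] at h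
          · exact mem_sup_self _ _
    · intro g hg
      have h1 := (mem_lst2 g).mpr hg
      rintro s (rfl | rfl | rfl)
      · exact t0 g
      · exact t1 g
      · rw [map_mul, t2, t3]
        have e : sg (g 0) * D.y 0 * (sg (g 1) * D.y 1) = sg (g 0 * g 1) * (D.y 0 * D.y 1) := by
          rw [sg_mul]; ring
        rw [e, h1, sg_one, one_mul]
  have f3 : IntermediateField.fixedField ((Gam.{u} 3).map ρ) =
      IntermediateField.adjoin k {D.x 0, D.x 1, D.y 0 * D.y 1 * D.w} := by
    have := hfin 3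
    refine eq_fixedField (m := 4) ?_ _ (hle 3 _ ?_) (by rw [hcard]; decide)
    · have n0 : D.x 0 ∈ IntermediateField.adjoin k {D.x 0, D.x 1, D.y 0 * D.y 1 * D.w} := mem1 _ _ _
      have n1 : D.x 1 ∈ IntermediateField.adjoin k {D.x 0, D.x 1, D.y 0 * D.y 1 * D.w} := mem2 _ _ _
      refine bd_sqrt (m := 2) (D.y 0) (by rw [hf]; exact aeval_mem' n0 _) ?_
      refine bd_sqrt (m := 1) (D.y 1) (by rw [hf]; exact mem_sup_left' (aeval_mem' n1 _)) ?_
      · rw [eq_top_of hgen5 (K := IntermediateField.adjoin k {D.x 0, D.x 1, D.y 0 * D.y 1 * D.w} ⊔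
          IntermediateField.adjoin k {D.y 0} ⊔ IntermediateField.adjoin k {D.y 1}) ?_]
        · exact bd_top
        · rintro s (rfl | rfl | rfl | rfl | rfl)
          · exact mem_sup_left' (mem_sup_left' n0)
          · exact mem_sup_left' (mem_sup_left' n1)
          · exact mem_sup_left' (mem_sup_self _ _)
          · exact mem_sup_self _ _
          · have h := div_mem (mem_sup_left' (L := IntermediateField.adjoin k {D.y 1}) (mem_sup_left'
              (L := IntermediateField.adjoin k {D.y 0}) (mem3 (k := k) (D.x 0) (D.x 1) (D.y 0 * D.y 1 * D.w))))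
              (mul_mem (mem_sup_left' (L := IntermediateField.adjoin k {D.y 1}) (mem_sup_self _ (D.y 0)))
                (mem_sup_self _ (D.y 1)))
            rwa [mul_div_cancel_left₀ _ (mul_ne_zero (hy0 0) (hy0 1))] at h
    · intro g hg
      have h1 := (mem_lst3 g).mpr hg
      rintro s (rfl | rfl | rfl)
      · exact t0 g
      · exact t1 g
      · rw [map_mul, map_mul, t2, t3, t4]
        have e : sg (g 0) * D.y 0 * (sg (g 1) * D.y 1) * (sg (g 2) * D.w) =
            sg (g 0 * g 1 * g 2) * (D.y 0 * D.y 1 * D.w) := by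
          rw [sg_mul, sg_mul]; ring
        rw [e, h1, sg_one, one_mul]
  have hsum : (∑ i : Fin 4, (![0, 0, 1, 1] : Fin 4 → ℕ) i) = 2 := rfl
  rw [← hsum]
  refine vpj_dec ρ Gam span_Gam _ ?_
  intro i
  fin_cases i
  · change VPJ k (IntermediateField.fixedField ((Gam.{u} 0).map ρ)) 0
    rw [f0]
    refine vpj_g1_in (f := f 0) (A := C (D.c 0) + C (D.c 1) * X) (B := C (D.c 2) + C (D.c 3) * X) (htr 0) (hf 0) ?_
    rw [D.hw]
    simp only [map_add, map_mul, aeval_C, aeval_X]
    ring
  · change VPJ k (IntermediateField.fixedField ((Gam.{u} 1).map ρ)) 0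
    rw [f1]
    refine vpj_g1_in (f := f 1) (A := C (D.c 0) + C (D.c 2) * X) (B := C (D.c 1) + C (D.c 3) * X) (htr 1) (hf 1) ?_
    rw [D.hw]
    simp only [map_add, map_mul, aeval_C, aeval_X]
    ring
  · change VPJ k (IntermediateField.fixedField ((Gam.{u} 2).map ρ)) 1
    rw [f2]
    refine vpj_in D.hx fun F _ _ u' v' z' j hu hv hz huv hgen => ?_
    refine vpj_l3 (D := f 0) (hf0 0) ((hf3 0).trans (by norm_num)) (D.ha 1) huv ?_ hgen
    apply j.toRingHom.injective
    change j (z' ^ 2) = j (aeval u' (f 0) * ∏ l, (v' - algebraMap k F (D.a 1 l)))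
    rw [map_pow, map_mul, map_prod, hz, mul_pow, hf 0, D.hy 1, ← aeval_algHom_apply, hu]
    simp only [map_sub, AlgHom.commutes, hv]
  · change VPJ k (IntermediateField.fixedField ((Gam.{u} 3).map ρ)) 1
    rw [f3]
    refine vpj_in D.hx fun F _ _ u' v' z' j hu hv hz huv hgen => ?_
    refine vpj_l4all (D := f 0) (A := C (D.c 0) + C (D.c 1) * X) (B := C (D.c 2) + C (D.c 3) * X) (hf0 0) (hf3 0)
      (by compute_degree) (by compute_degree) ?_ (D.ha 1) huv ?_ hgen
    · by_contra hcon
      push Not at hcon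
      obtain ⟨hA, hB⟩ := hcon
      have h1 : D.w ^ 2 = aeval (D.x 0) (C (D.c 0) + C (D.c 1) * X) + aeval (D.x 0) (C (D.c 2) + C (D.c 3) * X) * D.x 1 := by
        rw [D.hw]
        simp only [map_add, map_mul, aeval_C, aeval_X]
        ring
      rw [hA, hB, map_zero, zero_mul, add_zero] at h1
      exact hz0 (pow_eq_zero_iff two_ne_zero |>.mp h1)
    · apply j.toRingHom.injective
      change j (z' ^ 2) = j (aeval u' (f 0) * (∏ l, (v' - algebraMap k F (D.a 1 l))) *
        (aeval u' (C (D.c 2) + C (D.c 3) * X) * v' + aeval u' (C (D.c 0) + C (D.c 1) * X)))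
      rw [map_pow, map_mul, map_mul, map_prod, hz, mul_pow, mul_pow, hf 0, D.hy 1, ← aeval_algHom_apply, hu]
      simp only [map_sub, AlgHom.commutes, hv, map_add, map_mul, aeval_C, aeval_X, hu, D.hw]
      ring

end Pool.Agent.Helper70.B4
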