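import Mathlib
import Pool.Agent.Helper9.NS
import Pool.Agent.Helper70.B4.Sext
import Pool.Agent.Helper79.B4.Defs

/-!
# B4: the blocks E and L
-/

set_option linter.unusedSectionVars false

namespace Pool.Agent.Helper70.B4

open Pool.Agent.Helper79.B4

universe u

/-- [E] -/
theorem e : StmtE.{u} := fun _ _ _ _ _ _ _ e hdeg hinj l x y hlx he hgen => vpj_leg e hdeg hinj l x y hlx he hgen

/-- [L] -/
theorem l : StmtL.{u} := fun _ _ _ _ _ _ _ _ hl _ _ _ hst hw hgen => vpj_six _ hl hst hw hgen

end Pool.Agent.Helper70.B4
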